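import Pool.Agent.H27.TMB.CBz

/-!
# Bounds for the correlation integral
-/

set_option autoImplicit false

open MeasureTheory Set Filter Complex

namespace Pool.Agent.H27.TMB.CBx

open Pool.Agent.H29.DW (dg Rl)
open Pool.Agent.H31.SW
open Pool.Agent.H27.TM

/-- the normalised phase -/
noncomputable def HH (α : ℝ) (ξ u t : ℂ) : ℂ :=
  -32 * ((((t + u) ^ 2 - (α : ℂ) ^ 2)⁻¹ - (t ^ 2 - (α : ℂ) ^ 2)⁻¹) / u +
    ξ * (t ^ 2 - (α : ℂ) ^ 2)⁻¹)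

/-- its derivative -/
noncomputable def HH' (α : ℝ) (ξ u t : ℂ) : ℂ :=
  -32 * ((-(2 * (t + u)) / ((t + u) ^ 2 - (α : ℂ) ^ 2) ^ 2 -
    -(2 * t) / (t ^ 2 - (α : ℂ) ^ 2) ^ 2) / u + ξ * (-(2 * t) / (t ^ 2 - (α : ℂ) ^ 2) ^ 2))

theorem HH_deriv {α : ℝ} {ξ u t : ℂ} (h0 : 0 < α) (h1 : α ≤ 1 / 10000)
    (ht : 33 / 100 ≤ ‖t‖) (htu : 33 / 100 ≤ ‖t + u‖) :
    HasDerivAt (HH α ξ u) (HH' α ξ u t) t := by
  have h2 := D_ne h0 h1 ht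
  have h3 := D_ne h0 h1 htu
  have h4 : HasDerivAt (fun t : ℂ => t ^ 2 - (α : ℂ) ^ 2) (2 * t) t := by
    have := (hasDerivAt_pow 2 t).sub_const ((α : ℂ) ^ 2)
    simpa using this
  have h5 : HasDerivAt (fun t : ℂ => (t + u) ^ 2 - (α : ℂ) ^ 2) (2 * (t + u)) t := by
    have h6 : HasDerivAt (fun t : ℂ => t ^ 2 - (α : ℂ) ^ 2) (2 * (t + u)) (t + u) := by
      have := (hasDerivAt_pow 2 (t + u)).sub_const ((α : ℂ) ^ 2)
      simpa using this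
    exact HasDerivAt.comp_add_const t u h6
  have h7 := h4.inv h2
  have h8 := h5.inv h3
  exact (((h8.sub h7).div_const u).add (h7.const_mul ξ)).const_mul (-32)

theorem pp_HH {α : ℝ} {c c' u t : ℂ} (hz : c * u ≠ 0) :
    pp α c c' u t = (α * (c * u) / 16) * (HH α ((c - c') / (c * u)) u t + 0) := by
  have hc : c ≠ 0 := left_ne_zero_of_mul hz
  have hu : u ≠ 0 := right_ne_zero_of_mul hz
  unfold pp HH
  rw [add_zero, div_eq_mul_inv (-(2 * (α : ℂ))), div_eq_mul_inv (-(2 * (α : ℂ)))]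
  obtain ⟨A, hA⟩ : ∃ A : ℂ, A = ((t + u) ^ 2 - (α : ℂ) ^ 2)⁻¹ := ⟨_, rfl⟩
  obtain ⟨B, hB⟩ : ∃ B : ℂ, B = (t ^ 2 - (α : ℂ) ^ 2)⁻¹ := ⟨_, rfl⟩
  rw [← hA, ← hB]
  field_simp
  ring

/-- the derivative is nearly constant -/
theorem HH_near {α : ℝ} {ξ u t t₀ : ℂ} (h0 : 0 < α) (h1 : α ≤ 1 / 10000)
    (h3 : 1 / 3 ≤ ‖t₀‖) (hu : ‖u‖ ≤ 1 / 1250) (hu0 : u ≠ 0)
    (htt : ‖t - t₀‖ ≤ 1 / 625) (hs : ‖t₀ * ξ - 2‖ ≤ 1 / 10) :
    ‖HH' α ξ u t - (-64 / t₀ ^ 4)‖ ≤ ‖(-64 / t₀ ^ 4 : ℂ)‖ / 2 := by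
  have ht0 : t₀ ≠ 0 := by
    intro h
    rw [h, norm_zero] at h3
    norm_num at h3
  have htp : 0 < ‖t₀‖ := norm_pos_iff.2 ht0
  obtain ⟨η, hη⟩ : ∃ η : ℂ, η = (t - t₀) / t₀ := ⟨_, rfl⟩
  obtain ⟨υ, hυ⟩ : ∃ υ : ℂ, υ = u / t₀ := ⟨_, rfl⟩
  obtain ⟨a, ha⟩ : ∃ a : ℂ, a = (α : ℂ) / t₀ := ⟨_, rfl⟩
  have nη : ‖η‖ ≤ 1 / 200 := by
    rw [hη, norm_div, div_le_iff₀ htp]
    linarith
  have nυ : ‖υ‖ ≤ 1 / 400 := by
    rw [hυ, norm_div, div_le_iff₀ htp]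
    linarith
  have na : ‖a‖ ≤ 1 / 3000 := by
    rw [ha, norm_div, Complex.norm_real, Real.norm_eq_abs, abs_of_pos h0, div_le_iff₀ htp]
    linarith
  have υ0 : υ ≠ 0 := by
    rw [hυ]
    exact div_ne_zero hu0 ht0
  have key := numB nη nυ na hs υ0
  have et : t = t₀ * (1 + η) := by
    rw [hη]
    field_simp
    ring
  have eu : u = t₀ * υ := by
    rw [hυ]
    field_simp
  have ea : (α : ℂ) = t₀ * a := by
    rw [ha]
    field_simp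
  have e0 : t ^ 2 - (α : ℂ) ^ 2 = t₀ ^ 2 * ((1 + η) ^ 2 - a ^ 2) := by
    rw [et, ea]
    ring
  have e1 : (t + u) ^ 2 - (α : ℂ) ^ 2 = t₀ ^ 2 * ((1 + η + υ) ^ 2 - a ^ 2) := by
    rw [et, ea, eu]
    ring
  have e : HH' α ξ u t - (-64 / t₀ ^ 4) = (t₀ ^ 4)⁻¹ *
      (-32 * ((2 * (1 + η) / ((1 + η) ^ 2 - a ^ 2) ^ 2 -
      2 * (1 + η + υ) / ((1 + η + υ) ^ 2 - a ^ 2) ^ 2) / υ) +
      64 * ((t₀ * ξ) * (1 + η)) / ((1 + η) ^ 2 - a ^ 2) ^ 2 + 64) := by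
    unfold HH'
    rw [e0, e1]
    obtain ⟨A, hA⟩ : ∃ A : ℂ, A = ((1 + η) ^ 2 - a ^ 2)⁻¹ := ⟨_, rfl⟩
    obtain ⟨B, hB⟩ : ∃ B : ℂ, B = ((1 + η + υ) ^ 2 - a ^ 2)⁻¹ := ⟨_, rfl⟩
    have d1 : ∀ y : ℂ, y / (t₀ ^ 2 * ((1 + η) ^ 2 - a ^ 2)) ^ 2 = y * A ^ 2 / t₀ ^ 4 := by
      intro y
      rw [hA, mul_pow, inv_pow, div_mul_eq_div_div, div_eq_mul_inv _ (((1 + η) ^ 2 - a ^ 2) ^ 2)]
      rw [← pow_mul]
      ring
    have d2 : ∀ y : ℂ, y / (t₀ ^ 2 * ((1 + η + υ) ^ 2 - a ^ 2)) ^ 2 = y * B ^ 2 / t₀ ^ 4 := by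
      intro y
      rw [hB, mul_pow, inv_pow, div_mul_eq_div_div,
        div_eq_mul_inv _ (((1 + η + υ) ^ 2 - a ^ 2) ^ 2)]
      rw [← pow_mul]
      ring
    have d3 : ∀ y : ℂ, y / ((1 + η) ^ 2 - a ^ 2) ^ 2 = y * A ^ 2 := by
      intro y
      rw [hA, inv_pow, div_eq_mul_inv]
    have d4 : ∀ y : ℂ, y / ((1 + η + υ) ^ 2 - a ^ 2) ^ 2 = y * B ^ 2 := by
      intro y
      rw [hB, inv_pow, div_eq_mul_inv]
    rw [d1, d2, d3, d4, d3, et, eu]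
    field_simp
    ring
  have hr : ‖(-64 / t₀ ^ 4 : ℂ)‖ / 2 = ‖(t₀ ^ 4)⁻¹‖ * 32 := by
    rw [norm_div, norm_neg, Complex.norm_ofNat, norm_inv]
    ring
  rw [e, norm_mul, hr]
  exact mul_le_mul_of_nonneg_left key (norm_nonneg _)

/-- the stationary case -/
theorem caseB (hLO : M_LO) (hOI : W_OI) (k : ℕ) : ∃ C : ℝ, 0 ≤ C ∧ ∀ (r : Bool) (α : ℝ)
    (c c' u t₀ : ℂ) (Q : ℂ → ℂ) (G : ℝ), 0 < α → α ≤ 1 / 10000 → Rl r c → Rl r c' → Rl r u →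
    0 ≤ G → 1 / 3 ≤ ‖t₀‖ → ‖t₀‖ ≤ 2 → DS (k + 3) G t₀ (1 / 2500) Q → ‖u‖ ≤ 1 / 1250 →
    ‖(c - c') - c * u * mu α u t₀‖ < (‖c - c'‖ + 8 * ‖c * u‖) / 320 →
    ‖Cr r α c c' Q u‖ ≤ C * G ^ 2 * (1 + α * ‖c - c'‖) ^ (-(dg r : ℝ) / 2) ∧
      ‖c * u‖ ≤ 2 * ‖c - c'‖ := by
  obtain ⟨C₁, hC₁, h1⟩ := hOI (1 / 2500) (by norm_num)
  refine ⟨C₁ * 2 ^ 3 * 200, by positivity, ?_⟩
  intro r α c c' u t₀ Q G h0 h0' hc hc' hu hG ht1 ht2 hQ hu1 hB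
  have hz : c * u ≠ 0 := by
    intro h
    rw [h, zero_mul, sub_zero, norm_zero] at hB
    linarith [norm_nonneg (c - c')]
  have hu0 : u ≠ 0 := right_ne_zero_of_mul hz
  have hzp : 0 < ‖c * u‖ := norm_pos_iff.2 hz
  have htp : 0 < ‖t₀‖ := by linarith
  have hs := near2 h0 h0' ht1 ht2 hu1 hz hB
  have hx : ‖t₀ * ((c - c') / (c * u))‖ = ‖t₀‖ * ‖c - c'‖ / ‖c * u‖ := by
    rw [norm_mul, norm_div, mul_div_assoc]
  have g1 : ‖t₀ * ((c - c') / (c * u))‖ ≤ 21 / 10 := by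
    have := norm_add_le (t₀ * ((c - c') / (c * u)) - 2) 2
    rw [sub_add_cancel, Complex.norm_ofNat] at this
    linarith
  have g2 : 19 / 10 ≤ ‖t₀ * ((c - c') / (c * u))‖ := by
    have := norm_sub_le (t₀ * ((c - c') / (c * u))) (t₀ * ((c - c') / (c * u)) - 2)
    rw [sub_sub_cancel, Complex.norm_ofNat] at this
    linarith
  rw [hx] at g1 g2
  rw [div_le_iff₀ hzp] at g1
  rw [le_div_iff₀ hzp] at g2
  have g3 : ‖c - c'‖ ≤ 63 / 10 * ‖c * u‖ := by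
    have : 1 / 3 * ‖c - c'‖ ≤ ‖t₀‖ * ‖c - c'‖ :=
      mul_le_mul_of_nonneg_right ht1 (norm_nonneg _)
    linarith
  have g4 : ‖c * u‖ ≤ 2 * ‖c - c'‖ := by
    have : ‖t₀‖ * ‖c - c'‖ ≤ 2 * ‖c - c'‖ := mul_le_mul_of_nonneg_right ht2 (norm_nonneg _)
    linarith
  refine ⟨?_, g4⟩
  have hball : ∀ w ∈ Metric.ball t₀ (4 * (1 / 2500)), ‖w - t₀‖ ≤ 1 / 625 := by
    intro w hw
    rw [Metric.mem_ball, dist_eq_norm] at hw
    norm_num at hw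
    linarith
  have hk : 1 ≤ ‖(-64 / t₀ ^ 4 : ℂ)‖ := by
    rw [norm_div, norm_neg, Complex.norm_ofNat, norm_pow, le_div_iff₀ (by positivity), one_mul]
    calc ‖t₀‖ ^ 4 ≤ 2 ^ 4 := pow_le_pow_left₀ htp.le ht2 4
      _ ≤ 64 := by norm_num
  have hDS : DS 3 (2 ^ 3 * (G * G)) t₀ (1 / 2500) (dif u Q) := DS.dif hG (hQ.of_le (by omega)) u
  have h5 := h1 r t₀ (α * (c * u) / 16) 0 (-64 / t₀ ^ 4)
    (fun t => c * lo α (t + u) - c' * lo α t) (HH α ((c - c') / (c * u)) u)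
    (HH' α ((c - c') / (c * u)) u) (dif u Q) (2 ^ 3 * (G * G)) (by positivity) hk
    (fun w hw => by
      obtain ⟨a1, -, a3, -⟩ := near ht1 ht2 (le_refl _) (hball w hw) hu1
      rw [← pp_HH hz]
      exact pp_deriv hLO h0 h0' a1 a3)
    (fun w hw => by
      obtain ⟨a1, -, a3, -⟩ := near ht1 ht2 (le_refl _) (hball w hw) hu1
      exact ⟨HH_deriv h0 h0' a1 a3, HH_near h0 h0' ht1 hu1 hu0 (hball w hw) hs⟩)
    (fun w _ hr => by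
      rw [← pp_HH hz]
      exact Rl_pp hc hc' hu hr) hDS
  rw [← Cr_eq] at h5
  have hΛ : ‖(α * (c * u) / 16 : ℂ)‖ = α * ‖c * u‖ / 16 := by
    rw [norm_div, norm_mul (α : ℂ), Complex.norm_real, Real.norm_eq_abs, abs_of_pos h0,
      Complex.norm_ofNat]
  rw [hΛ] at h5
  have hdg : (0 : ℝ) ≤ (dg r : ℝ) / 2 ∧ (dg r : ℝ) / 2 ≤ 1 := by
    cases r <;> norm_num [dg]
  have h6 : 1 + α * ‖c - c'‖ ≤ 200 * (1 + α * ‖c * u‖ / 16) := by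
    have : α * ‖c - c'‖ ≤ α * (63 / 10 * ‖c * u‖) := mul_le_mul_of_nonneg_left g3 h0.le
    have : 0 ≤ α * ‖c * u‖ := by positivity
    linarith
  have hθ : 0 < 1 + α * ‖c - c'‖ := by positivity
  have hL0 : 0 < 1 + α * ‖c * u‖ / 16 := by positivity
  have h7 : (1 + α * ‖c * u‖ / 16) ^ (-(dg r : ℝ) / 2) ≤
      200 * (1 + α * ‖c - c'‖) ^ (-(dg r : ℝ) / 2) := by
    rw [neg_div, Real.rpow_neg hL0.le, Real.rpow_neg hθ.le, ← div_eq_mul_inv,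
      le_div_iff₀ (by positivity), ← div_eq_inv_mul, div_le_iff₀ (by positivity)]
    calc (1 + α * ‖c - c'‖) ^ ((dg r : ℝ) / 2)
        ≤ (200 * (1 + α * ‖c * u‖ / 16)) ^ ((dg r : ℝ) / 2) :=
          Real.rpow_le_rpow hθ.le h6 hdg.1
      _ = 200 ^ ((dg r : ℝ) / 2) * (1 + α * ‖c * u‖ / 16) ^ ((dg r : ℝ) / 2) :=
          Real.mul_rpow (by norm_num) hL0.le
      _ ≤ 200 * (1 + α * ‖c * u‖ / 16) ^ ((dg r : ℝ) / 2) := by
          refine mul_le_mul_of_nonneg_right ?_ (by positivity)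
          calc (200 : ℝ) ^ ((dg r : ℝ) / 2) ≤ 200 ^ (1 : ℝ) :=
                Real.rpow_le_rpow_of_exponent_le (by norm_num) hdg.2
            _ = 200 := Real.rpow_one _
  calc ‖Cr r α c c' Q u‖ ≤ C₁ * (2 ^ 3 * (G * G)) *
        (1 + α * ‖c * u‖ / 16) ^ (-(dg r : ℝ) / 2) := h5
    _ ≤ C₁ * (2 ^ 3 * (G * G)) * (200 * (1 + α * ‖c - c'‖) ^ (-(dg r : ℝ) / 2)) := by gcongr
    _ = _ := by ring

theorem Cr_zero {r : Bool} {α : ℝ} {c c' u t₀ : ℂ} {Q : ℂ → ℂ} {n : ℕ} {G : ℝ}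
    (hQ : DS n G t₀ (1 / 2500) Q) (hu : 1 / 1250 < ‖u‖) : Cr r α c c' Q u = 0 := by
  have h : ∀ t, dif u Q t * EE (c * lo α (t + u) - c' * lo α t) = 0 := by
    intro t
    unfold dif
    rcases lt_or_ge (1 / 2500) ‖t - t₀‖ with h1 | h1
    · rw [DS.eq_zero hQ h1, map_zero, mul_zero, zero_mul]
    · have h2 : 1 / 2500 < ‖t + u - t₀‖ := by
        have h3 := norm_sub_le (t + u - t₀) (t - t₀)
        have e : t + u - t₀ - (t - t₀) = u := by ring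
        rw [e] at h3
        linarith
      rw [DS.eq_zero hQ h2, zero_mul, zero_mul]
  rw [Cr_eq]
  have h2 := norm_itg_le (r := r) (G := fun t => dif u Q t * EE (c * lo α (t + u) - c' * lo α t))
    (w₀ := 0) (ρ := 0) (B := 0) le_rfl le_rfl (fun w => by rw [h w, norm_zero])
    (fun w _ => h w)
  rw [mul_zero] at h2
  exact norm_le_zero_iff.1 h2

theorem pf_CB (hLO : M_LO) (hNS : W_NS) (hOI : W_OI) : M_CB := by
  intro k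
  obtain ⟨C₁, hC₁, hA⟩ := caseA hLO hNS k
  obtain ⟨C₂, hC₂, hB⟩ := caseB hLO hOI k
  refine ⟨2 ^ k * C₁ + 3 ^ k * C₂ + C₁, by positivity, ?_⟩
  intro r α τ c c' u Q G h0 h0' hτ hτ1 hτ2 hc hc' hu hG hAm
  obtain ⟨t₀, ht0, ht1, ht2, hQ⟩ := hAm
  have hG2 : 0 ≤ G ^ 2 := sq_nonneg G
  have hθ1 : 1 ≤ 1 + α * ‖c - c'‖ := by
    have : 0 ≤ α * ‖c - c'‖ := by positivity
    linarith
  have hθ : 0 < 1 + α * ‖c - c'‖ := by linarith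
  have hdg : (0 : ℝ) ≤ (dg r : ℝ) / 2 ∧ (dg r : ℝ) / 2 ≤ 1 := by
    cases r <;> norm_num [dg]
  constructor
  · have hM : 0 ≤ max 1 (α * τ) * ‖u‖ := by positivity
    have hR0 : 0 ≤ max 1 (α * τ) * ‖u‖ / (1 + α * ‖c - c'‖) := by positivity
    obtain ⟨R, hR⟩ : ∃ R : ℝ, R = 1 + max 1 (α * τ) * ‖u‖ / (1 + α * ‖c - c'‖) := ⟨_, rfl⟩
    rw [← hR]
    have hR1 : 1 ≤ R := by rw [hR]; linarith
    rcases lt_or_ge (1 / 1250) ‖u‖ with hu1 | hu1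
    · rw [Cr_zero hQ hu1, norm_zero]
      positivity
    · have hMz : max 1 (α * τ) * ‖u‖ ≤ 1 + α * ‖c * u‖ := by
        have h1 : max 1 (α * τ) ≤ 1 + α * τ := by
          have : 0 ≤ α * τ := by positivity
          exact max_le (by linarith) (by linarith)
        have h2 : α * τ ≤ α * (1 + ‖c‖) := mul_le_mul_of_nonneg_left hτ1 h0.le
        calc max 1 (α * τ) * ‖u‖ ≤ (1 + α * (1 + ‖c‖)) * ‖u‖ := by
              refine mul_le_mul_of_nonneg_right (by linarith) (norm_nonneg _)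
          _ = ‖u‖ + α * ‖u‖ + α * (‖c‖ * ‖u‖) := by ring
          _ ≤ 1 + α * (‖c‖ * ‖u‖) := by
              have : α * ‖u‖ ≤ 1 / 10000 * ‖u‖ := mul_le_mul_of_nonneg_right h0' (norm_nonneg _)
              linarith
          _ = _ := by rw [norm_mul]
      have hRk : R ^ (-(k : ℝ)) = (R ^ k)⁻¹ := by
        rw [Real.rpow_neg (by linarith), Real.rpow_natCast]
      have hθd : (1 + α * ‖c - c'‖) ^ (-(dg r : ℝ) / 2) =
          ((1 + α * ‖c - c'‖) ^ ((dg r : ℝ) / 2))⁻¹ := by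
        rw [neg_div, Real.rpow_neg hθ.le]
      rcases le_or_gt ((‖c - c'‖ + 8 * ‖c * u‖) / 320) ‖(c - c') - c * u * mu α u t₀‖ with h | h
      · have hb := hA r α c c' u t₀ Q G h0 h0' hc hc' hu hG ht1 ht2 hQ hu1 h
        have hz0 : 0 ≤ α * ‖c * u‖ := by positivity
        have hx0 : 0 ≤ α * ‖c - c'‖ := by positivity
        obtain ⟨Y, hY⟩ : ∃ Y : ℝ, Y = 1 + α * (‖c - c'‖ + 8 * ‖c * u‖) := ⟨_, rfl⟩
        rw [← hY] at hb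
        have hY1 : 1 ≤ Y := by rw [hY]; nlinarith
        have hθY : (1 + α * ‖c - c'‖) ^ ((dg r : ℝ) / 2) ≤ Y := by
          calc (1 + α * ‖c - c'‖) ^ ((dg r : ℝ) / 2) ≤ (1 + α * ‖c - c'‖) ^ (1 : ℝ) :=
                Real.rpow_le_rpow_of_exponent_le hθ1 hdg.2
            _ = 1 + α * ‖c - c'‖ := Real.rpow_one _
            _ ≤ Y := by rw [hY]; nlinarith
        have hRY : R ≤ 2 * Y := by
          have h2 : max 1 (α * τ) * ‖u‖ / (1 + α * ‖c - c'‖) ≤ max 1 (α * τ) * ‖u‖ :=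
            div_le_self hM hθ1
          rw [hR, hY]
          nlinarith
        have hRY2 : R ^ k ≤ 2 ^ k * Y ^ k := by
          rw [← mul_pow]
          exact pow_le_pow_left₀ (by linarith) hRY k
        rw [hRk, hθd, ← div_eq_mul_inv, ← div_eq_mul_inv, div_div,
          le_div_iff₀ (by positivity)]
        calc ‖Cr r α c c' Q u‖ * ((1 + α * ‖c - c'‖) ^ ((dg r : ℝ) / 2) * R ^ k)
            ≤ ‖Cr r α c c' Q u‖ * (Y * (2 ^ k * Y ^ k)) := by gcongr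
          _ = 2 ^ k * (‖Cr r α c c' Q u‖ * Y ^ (k + 1)) := by ring
          _ ≤ 2 ^ k * (C₁ * G ^ 2) := by gcongr
          _ ≤ (2 ^ k * C₁ + 3 ^ k * C₂ + C₁) * G ^ 2 := by
              have h5 : 0 ≤ 3 ^ k * C₂ * G ^ 2 := by positivity
              have h6 : 0 ≤ C₁ * G ^ 2 := by positivity
              linarith
      · obtain ⟨hb, hzx⟩ := hB r α c c' u t₀ Q G h0 h0' hc hc' hu hG ht1 ht2 hQ hu1 h
        have hR3 : R ≤ 3 := by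
          rw [hR]
          have : max 1 (α * τ) * ‖u‖ / (1 + α * ‖c - c'‖) ≤ 2 := by
            rw [div_le_iff₀ hθ]
            have : α * ‖c * u‖ ≤ α * (2 * ‖c - c'‖) := mul_le_mul_of_nonneg_left hzx h0.le
            linarith
          linarith
        have h3 : R ^ k ≤ 3 ^ k := pow_le_pow_left₀ (by linarith) hR3 k
        have hT : 0 < (1 + α * ‖c - c'‖) ^ (-(dg r : ℝ) / 2) := Real.rpow_pos_of_pos hθ _
        rw [hRk, ← div_eq_mul_inv, le_div_iff₀ (by positivity)]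
        calc ‖Cr r α c c' Q u‖ * R ^ k
            ≤ (C₂ * G ^ 2 * (1 + α * ‖c - c'‖) ^ (-(dg r : ℝ) / 2)) * 3 ^ k := by gcongr
          _ = 3 ^ k * C₂ * G ^ 2 * (1 + α * ‖c - c'‖) ^ (-(dg r : ℝ) / 2) := by ring
          _ ≤ (2 ^ k * C₁ + 3 ^ k * C₂ + C₁) * G ^ 2 *
              (1 + α * ‖c - c'‖) ^ (-(dg r : ℝ) / 2) := by
              gcongr
              have : 0 ≤ 2 ^ k * C₁ := by positivity
              linarith
  · have hb := hA r α c c' 0 t₀ Q G h0 h0' hc hc' (Rl_zero r) hG ht1 ht2 hQ (by simp) (by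
      rw [mul_zero, zero_mul, norm_zero, mul_zero, add_zero, sub_zero]
      linarith [norm_nonneg (c - c')])
    rw [mul_zero, norm_zero, mul_zero, add_zero] at hb
    rw [Real.rpow_neg hθ.le, Real.rpow_natCast, ← div_eq_mul_inv, le_div_iff₀ (by positivity)]
    calc ‖Cr r α c c' Q 0‖ * (1 + α * ‖c - c'‖) ^ k
        ≤ ‖Cr r α c c' Q 0‖ * (1 + α * ‖c - c'‖) ^ (k + 1) := by
          gcongr
          omega
      _ ≤ C₁ * G ^ 2 := hb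
      _ ≤ (2 ^ k * C₁ + 3 ^ k * C₂ + C₁) * G ^ 2 := by
          have h5 : 0 ≤ 3 ^ k * C₂ * G ^ 2 := by positivity
          have h6 : 0 ≤ 2 ^ k * C₁ * G ^ 2 := by positivity
          linarith

end Pool.Agent.H27.TMB.CBx
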