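import Pool.Agent.H27.TM.TargetsA
import Pool.Agent.H23.LC.Targets
import Pool.Agent.H23.LB.Targets
import Pool.Agent.H23.GLB.Avg

/-!
# The twelfth moment of Hecke L-functions: the theorem
-/

set_option autoImplicit false

open NumberField NumberField.InfinitePlace NumberField.Units
  NumberField.Units.dirichletUnitTheorem MeasureTheory Set Filter Complex
open scoped nonZeroDivisors ENNReal

namespace Pool.Agent.H27.TMB.FI

open Pool.Agent.H25.HK Pool.Agent.H23.LB Pool.Agent.H23.LC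
open Pool.Agent.H31.SW (PP dK)
open Pool.Agent.H27.TM

section NF

variable {K : Type} [Field K] [NumberField K] {f : Ideal (𝓞 K)}

private lemma cont_L {L : ℂ → ℂ} (h : ∀ s : ℂ, s ≠ 0 → s ≠ 1 → DifferentiableAt ℂ L s) :
    Continuous fun t : ℝ => L (1 / 2 + t * I) := by
  rw [continuous_iff_continuousAt]
  intro t
  have h0 : (1 / 2 + t * I : ℂ) ≠ 0 := by
    intro hh
    have := congrArg Complex.re hh
    simp at this
  have h1 : (1 / 2 + t * I : ℂ) ≠ 1 := by
    intro hh
    have := congrArg Complex.re hh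
    simp at this
  exact ContinuousAt.comp (f := fun t : ℝ => (1 / 2 + t * I : ℂ)) (h _ h0 h1).continuousAt
    (by fun_prop)

private lemma disc_ge : 1 ≤ |(discr K : ℝ)| := by
  have h : (1 : ℤ) ≤ |discr K| := Int.one_le_abs (discr_ne_zero K)
  have h2 : ((1 : ℤ) : ℝ) ≤ ((|discr K| : ℤ) : ℝ) := by exact_mod_cast h
  simpa using h2

private lemma Nf_ge (hf : f ≠ ⊥) : 1 ≤ (Ideal.absNorm f : ℝ) := by
  have h : Ideal.absNorm f ≠ 0 := fun h => hf (Ideal.absNorm_eq_zero_iff.1 h)
  exact_mod_cast Nat.one_le_iff_ne_zero.2 h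

private lemma one_le_PPT {T : InfinitePlace K → ℝ} (hT : ∀ v, 1 ≤ T v) : 1 ≤ PP T := by
  unfold PP
  have h : ∏ v : InfinitePlace K, (1 : ℝ) ≤ ∏ v : InfinitePlace K, T v ^ v.mult :=
    Finset.prod_le_prod (fun _ _ => zero_le_one) fun v _ => one_le_pow₀ (hT v)
  simpa using h

private lemma sum_pairs (S : Finset (HG K f)) (P : HG K f → Finset ℝ) (F : HG K f → ℝ → ℝ) :
    ∃ S' : Finset (HG K f × ℝ), (∀ q, q ∈ S' ↔ q.1 ∈ S ∧ q.2 ∈ P q.1) ∧
      ∑ q ∈ S', F q.1 q.2 = ∑ χ ∈ S, ∑ t ∈ P χ, F χ t := by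
  have hinj : Function.Injective (fun x : (_ : HG K f) × ℝ => (x.1, x.2)) := by
    rintro ⟨a, b⟩ ⟨c, d⟩ h
    have h1 := congrArg Prod.fst h
    have h2 := congrArg Prod.snd h
    change a = c at h1
    change b = d at h2
    subst h1
    subst h2
    rfl
  refine ⟨(S.sigma P).map ⟨_, hinj⟩, fun q => ?_, ?_⟩
  · rw [Finset.mem_map]
    constructor
    · rintro ⟨x, hx, rfl⟩
      rw [Finset.mem_sigma] at hx
      exact hx
    · intro hq
      exact ⟨⟨q.1, q.2⟩, Finset.mem_sigma.2 hq, rfl⟩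
  · rw [Finset.sum_map, Finset.sum_sigma]
    rfl

end NF

/-- (FI) the theorem. -/
theorem pf_FI (hTM : M_TM) (hFK : U_FK) (hFG : U_FG) (hSY : T_SY) : M_FI := by
  intro m hm
  obtain ⟨B, hB, h⟩ := hTM m hm
  refine ⟨B, fun ε hε => ?_⟩
  have hm0 : (0 : ℝ) < m := by exact_mod_cast hm
  set e₁ : ℝ := min ε 1 with he₁
  have he10 : 0 < e₁ := lt_min hε one_pos
  have he11 : e₁ ≤ 1 := min_le_right _ _
  have he1ε : e₁ ≤ ε := min_le_left _ _
  set e₂ : ℝ := e₁ / m with he₂
  have hm1 : (1 : ℝ) ≤ m := by exact_mod_cast hm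
  have he20 : 0 < e₂ := by positivity
  have he21 : e₂ ≤ 1 := by
    rw [he₂, div_le_one hm0]
    linarith
  obtain ⟨C₁, hC₁, h1⟩ := h e₁ he10 he11
  obtain ⟨C₂, hC₂, h2⟩ := h e₂ he20 he21
  set C₃ : ℝ := C₂ * (4 : ℝ) ^ (m * (2 + e₂)) with hC₃
  have hC₃0 : 0 ≤ C₃ := by positivity
  refine ⟨max C₁ C₃, ?_⟩
  intro K _ _ hK f hf
  classical
  obtain ⟨Y⟩ := hSY K f hf
  choose L hL hLd using fun χ : HG K f => hFK K f hf Y χ
  have hd := disc_ge (K := K)
  have hN := Nf_ge hf
  have hdN : 1 ≤ |(discr K : ℝ)| * (Ideal.absNorm f : ℝ) :=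
    one_le_mul_of_one_le_of_one_le hd hN
  have hdNB : 1 ≤ (|(discr K : ℝ)| * (Ideal.absNorm f : ℝ)) ^ B := Real.one_le_rpow hdN hB
  refine ⟨L, fun χ => ⟨(hL χ).1, (hL χ).2.1, hLd χ⟩, ?_, ?_⟩
  · intro T S hT hS1 hS2
    have h3 := h1 K hK f hf Y L hL T S hT hS2 hS1
    refine h3.trans ?_
    have hP := one_le_PPT hT
    have e : (∏ v, T v ^ v.mult) = PP T := rfl
    rw [e]
    have e2 : dK K * Nf K f = |(discr K : ℝ)| * (Ideal.absNorm f : ℝ) := rfl
    rw [e2, ← mul_assoc]
    have h4 : PP T ^ (2 + e₁) ≤ PP T ^ (2 + ε) :=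
      Real.rpow_le_rpow_of_exponent_le hP (by linarith)
    have h5 : C₁ ≤ max C₁ C₃ := le_max_left _ _
    gcongr
  · intro T hT
    have hT0 : 0 < T := by linarith
    have hfin := hFG K f T hf hT
    refine ⟨hfin, ?_⟩
    set S : Finset (HG K f) := hfin.toFinset with hS
    have hSm : ∀ χ, χ ∈ S ↔ χ ∈ box K f T := fun χ => hfin.mem_toFinset
    set M : ℝ := C₃ * (|(discr K : ℝ)| * (Ideal.absNorm f : ℝ)) ^ B * T ^ (2 * m + ε) with hM
    have hM0 : 0 ≤ M := by positivity
    have hMC : M ≤ max C₁ C₃ * (|(discr K : ℝ)| * (Ideal.absNorm f : ℝ)) ^ B *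
        T ^ (2 * m + ε) := by
      rw [hM]
      gcongr
      exact le_max_right _ _
    -- separated points
    have hsepr : ∀ P : HG K f → Finset ℝ,
        (∀ χ, ∀ t ∈ P χ, |t| ≤ T ∧ ∀ t' ∈ P χ, t ≠ t' → 1 ≤ |t - t'|) →
        ∑ χ ∈ S, ∑ t ∈ P χ, ‖L χ (1 / 2 + t * I)‖ ^ 12 ≤ M := by
      intro P hP
      obtain ⟨S', hS', e1⟩ := sum_pairs S P (fun χ t => ‖L χ (1 / 2 + t * I)‖ ^ 12)
      rw [← e1]
      have hT4 : ∀ v : InfinitePlace K, 1 ≤ (fun _ : InfinitePlace K => 4 * T) v := by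
        intro v
        show 1 ≤ 4 * T
        linarith
      have h3 := h2 K hK f hf Y L hL (fun _ => 4 * T) S' hT4 ?_ ?_
      · refine h3.trans ?_
        have hPP : PP (fun _ : InfinitePlace K => 4 * T) = (4 * T) ^ m := by
          unfold PP
          rw [Finset.prod_pow_eq_pow_sum, NumberField.InfinitePlace.sum_mult_eq, hK]
        have e2 : dK K * Nf K f = |(discr K : ℝ)| * (Ideal.absNorm f : ℝ) := rfl
        rw [hPP, e2, hM, hC₃]
        have h4 : ((4 * T) ^ m : ℝ) ^ (2 + e₂) ≤ (4 : ℝ) ^ (m * (2 + e₂)) * T ^ (2 * m + ε) := by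
          rw [← Real.rpow_natCast, ← Real.rpow_mul (by positivity),
            Real.mul_rpow (by norm_num) hT0.le]
          refine mul_le_mul_of_nonneg_left ?_ (by positivity)
          refine Real.rpow_le_rpow_of_exponent_le hT ?_
          rw [he₂]
          have : (m : ℝ) * (2 + e₁ / m) = 2 * m + e₁ := by
            field_simp
          rw [this]
          linarith
        calc C₂ * ((|(discr K : ℝ)| * (Ideal.absNorm f : ℝ)) ^ B * ((4 * T) ^ m) ^ (2 + e₂))
            ≤ C₂ * ((|(discr K : ℝ)| * (Ideal.absNorm f : ℝ)) ^ B *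
              ((4 : ℝ) ^ (m * (2 + e₂)) * T ^ (2 * m + ε))) := by gcongr
          _ = _ := by ring
      · intro x hq v
        have hx := (hS' x).1 hq
        have hb := (hSm x.1).1 hx.1
        have h5 := (hb v).1
        have h6 := (hb v).2
        have h7 := (hP x.1 x.2 hx.2).1
        show 1 + |x.2 - x.1.ν v| + |(x.1.k v : ℝ)| ≤ 4 * T
        have h8 := abs_sub x.2 (x.1.ν v)
        linarith
      · intro p hp q hq hpq hne
        have hx := (hS' p).1 hp
        have hy := (hS' q).1 hq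
        rw [← hpq] at hy
        exact (hP p.1 p.2 hx.2).2 q.2 hy.2 hne
    have hsep : ∀ P : HG K f → Finset ℝ,
        (∀ χ, ∀ t ∈ P χ, |t| ≤ T ∧ ∀ t' ∈ P χ, t ≠ t' → 1 ≤ |t - t'|) →
        ∑ χ ∈ S, ∑ t ∈ P χ, ENNReal.ofReal (‖L χ (1 / 2 + t * I)‖ ^ 12) ≤
          ENNReal.ofReal M := by
      intro P hP
      have e : ∑ χ ∈ S, ∑ t ∈ P χ, ENNReal.ofReal (‖L χ (1 / 2 + t * I)‖ ^ 12) =
          ENNReal.ofReal (∑ χ ∈ S, ∑ t ∈ P χ, ‖L χ (1 / 2 + t * I)‖ ^ 12) := by
        rw [ENNReal.ofReal_sum_of_nonneg (fun χ _ => Finset.sum_nonneg fun t _ => by positivity)]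
        refine Finset.sum_congr rfl fun χ _ => ?_
        rw [ENNReal.ofReal_sum_of_nonneg (fun t _ => by positivity)]
      rw [e]
      exact ENNReal.ofReal_le_ofReal (hsepr P hP)
    -- the integral
    have hLc : ∀ χ : HG K f, Continuous fun t : ℝ => L χ (1 / 2 + t * I) := fun χ =>
      cont_L (hL χ).2.1
    have hmeas : ∀ χ : HG K f, Measurable fun t : ℝ =>
        ENNReal.ofReal (‖L χ (1 / 2 + t * I)‖ ^ 12) := fun χ =>
      ENNReal.measurable_ofReal.comp ((hLc χ).norm.pow 12).measurable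
    have hint : ∑ χ ∈ S, ∫⁻ t in Icc (-T) T, ENNReal.ofReal (‖L χ (1 / 2 + t * I)‖ ^ 12) ≤
        ENNReal.ofReal M := by
      rw [← lintegral_finsetSum _ (fun χ _ => hmeas χ)]
      refine Pool.Agent.H23.GLB.avg T _ (Finset.measurable_sum _ fun χ _ => hmeas χ) _ ?_
      intro P hP hPT
      rw [Finset.sum_comm]
      exact hsep (fun _ => P) (fun χ t ht => ⟨hPT t ht, fun t' ht' hne => hP t ht t' ht' hne⟩)
    refine ⟨?_, ?_⟩
    · rw [finsum_mem_eq_finite_toFinset_sum _ hfin]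
      refine le_trans ?_ hMC
      have e : ∀ χ : HG K f, ∫ t in (-T)..T, ‖L χ (1 / 2 + t * I)‖ ^ 12 =
          (∫⁻ t in Icc (-T) T, ENNReal.ofReal (‖L χ (1 / 2 + t * I)‖ ^ 12)).toReal := by
        intro χ
        rw [intervalIntegral.integral_of_le (by linarith), ← integral_Icc_eq_integral_Ioc]
        have hc2 : Continuous fun t : ℝ => ‖L χ (1 / 2 + t * I)‖ ^ 12 := (hLc χ).norm.pow 12
        rw [integral_eq_lintegral_of_nonneg_ae (Filter.Eventually.of_forall fun t => by positivity)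
          hc2.aestronglyMeasurable]
      have hfi : ∀ χ ∈ S, ∫⁻ t in Icc (-T) T, ENNReal.ofReal (‖L χ (1 / 2 + t * I)‖ ^ 12) ≠ ⊤ := by
        intro χ hχ
        have := (Finset.single_le_sum (f := fun χ => ∫⁻ t in Icc (-T) T,
          ENNReal.ofReal (‖L χ (1 / 2 + t * I)‖ ^ 12)) (fun _ _ => zero_le) hχ).trans hint
        exact ne_top_of_le_ne_top ENNReal.ofReal_ne_top this
      simp_rw [e]
      rw [← ENNReal.toReal_sum hfi]
      exact ENNReal.toReal_le_of_le_ofReal hM0 hint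
    · intro V hV
      have hV2 : 0 < V ^ 12 := by positivity
      constructor
      · -- the number of the exceptional characters
        set A : Set (HG K f) := {χ ∈ box K f T | ∃ t : ℝ, |t| ≤ T ∧
          V < ‖L χ (1 / 2 + t * I)‖} with hA
        have hAf : A.Finite := hfin.subset fun χ hχ => hχ.1
        have hex : ∀ χ : HG K f, ∃ t : ℝ, χ ∈ A → |t| ≤ T ∧ V < ‖L χ (1 / 2 + t * I)‖ := by
          intro χ
          by_cases h : χ ∈ A
          · obtain ⟨t, ht⟩ := h.2
            exact ⟨t, fun _ => ht⟩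
          · exact ⟨0, fun hh => absurd hh h⟩
        choose τ hτ using hex
        have h1 := hsepr (fun χ => if χ ∈ A then {τ χ} else ∅) (by
          intro χ t ht
          by_cases h : χ ∈ A
          · rw [if_pos h, Finset.mem_singleton] at ht
            subst ht
            refine ⟨(hτ χ h).1, fun t' ht' hne => ?_⟩
            rw [if_pos h, Finset.mem_singleton] at ht'
            exact absurd ht'.symm hne
          · rw [if_neg h] at ht
            exact absurd ht (Finset.notMem_empty t))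
        have h2 : (A.ncard : ℝ) * V ^ 12 ≤
            ∑ χ ∈ S, ∑ t ∈ (if χ ∈ A then {τ χ} else ∅ : Finset ℝ),
              ‖L χ (1 / 2 + t * I)‖ ^ 12 := by
          calc (A.ncard : ℝ) * V ^ 12 = ∑ _χ ∈ hAf.toFinset, V ^ 12 := by
                rw [Finset.sum_const, nsmul_eq_mul, Set.ncard_eq_toFinset_card _ hAf]
            _ ≤ ∑ χ ∈ hAf.toFinset, ∑ t ∈ (if χ ∈ A then {τ χ} else ∅ : Finset ℝ),
                ‖L χ (1 / 2 + t * I)‖ ^ 12 := by
                refine Finset.sum_le_sum fun χ hχ => ?_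
                have hχA : χ ∈ A := hAf.mem_toFinset.1 hχ
                rw [if_pos hχA, Finset.sum_singleton]
                exact pow_le_pow_left₀ hV.le (hτ χ hχA).2.le 12
            _ ≤ _ := by
                refine Finset.sum_le_sum_of_subset_of_nonneg ?_
                  (fun χ _ _ => Finset.sum_nonneg fun t _ => by positivity)
                intro χ hχ
                exact (hSm χ).2 (hAf.mem_toFinset.1 hχ).1
        rw [le_div_iff₀ hV2]
        exact (h2.trans h1).trans hMC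
      · -- the measure
        rw [finsum_mem_eq_finite_toFinset_sum _ hfin]
        have hch : ∀ χ : HG K f, ENNReal.ofReal (V ^ 12) *
            volume {t : ℝ | |t| ≤ T ∧ V < ‖L χ (1 / 2 + t * I)‖} ≤
            ∫⁻ t in Icc (-T) T, ENNReal.ofReal (‖L χ (1 / 2 + t * I)‖ ^ 12) := by
          intro χ
          refine le_trans ?_ (mul_meas_ge_le_lintegral (hmeas χ) (ENNReal.ofReal (V ^ 12)))
          refine mul_le_mul_right ?_ _
          rw [Measure.restrict_apply (measurableSet_le measurable_const (hmeas χ))]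
          refine measure_mono fun t ht => ⟨?_, abs_le.1 ht.1⟩
          exact ENNReal.ofReal_le_ofReal (pow_le_pow_left₀ hV.le ht.2.le 12)
        have hfi : ∀ χ ∈ S, volume {t : ℝ | |t| ≤ T ∧ V < ‖L χ (1 / 2 + t * I)‖} ≠ ⊤ := by
          intro χ _
          refine ne_top_of_le_ne_top (b := volume (Icc (-T) T)) (by simp)
            (measure_mono fun t ht => ?_)
          exact abs_le.1 ht.1
        rw [← ENNReal.toReal_sum hfi, le_div_iff₀ hV2]
        refine le_trans ?_ hMC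
        have h3 : ENNReal.ofReal (V ^ 12) * ∑ χ ∈ S,
            volume {t : ℝ | |t| ≤ T ∧ V < ‖L χ (1 / 2 + t * I)‖} ≤ ENNReal.ofReal M := by
          rw [Finset.mul_sum]
          exact (Finset.sum_le_sum fun χ _ => hch χ).trans hint
        have h4 := ENNReal.toReal_le_of_le_ofReal hM0 h3
        rw [ENNReal.toReal_mul, ENNReal.toReal_ofReal hV2.le] at h4
        linarith

end Pool.Agent.H27.TMB.FI
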