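import Pool.Agent.H31.SWL.All
import Pool.Agent.H23.GLB.Chain
import Pool.Agent.H29.THC.DFV
import Pool.Agent.H27.TM.TargetsL
import Pool.Agent.H27.TM.TargetsG
import Pool.Agent.H27.TM.TargetsA
import Pool.Agent.H13.TM.PA
import Pool.Agent.H19.TMB.BL
import Pool.Agent.H19.TMB.LT
import Pool.Agent.H19.TMB.TC
import Pool.Agent.H27.TMB.CB
import Pool.Agent.H27.TMB.FI
import Pool.Agent.H3.TMB.DL
import Pool.Agent.H3.TMB.SP
import Pool.Agent.H33.TMB.CL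
import Pool.Agent.H33.TMB.CT
import Pool.Agent.H33.TMB.HM
import Pool.Agent.H34.TM.ET
import Pool.Agent.H34.TM.WZ
import Pool.Agent.H39.TMB.LS
import Pool.Agent.H42.TMB.LA
import Pool.Agent.H49.TMB.ZT
import Pool.Agent.H50.TMB.NL
import Pool.Agent.H52.TM.MJ
import Pool.Agent.H54.TMB.CF
import Pool.Agent.H55.TM.BI
import Pool.Agent.H59.TMB.E1
import Pool.Agent.H59.TMB.NZ
import Pool.Agent.H6.TM.P2
import Pool.Agent.H60.TMB.DU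
import Pool.Agent.H60.TMB.JN
import Pool.Agent.H63.TMB.PS
import Pool.Agent.H64.TM.BQ
import Pool.Agent.H64.TM.P1
import Pool.Agent.H65.TM.GN
import Pool.Agent.H65.TM.LO
import Pool.Agent.H68.TMB.DY
import Pool.Agent.H68.TMB.KE
import Pool.Agent.H70.TMB.DV
import Pool.Agent.H77.TMB.RK
import Pool.Agent.H79.TMB.MQ
import Pool.Agent.H86.TMB.RT
import Pool.Agent.H86.TMB.TM
import Pool.Agent.H91.TMB.BP
import Pool.Agent.H91.TMB.OC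
import Pool.Agent.H97.TMB.KC
import Pool.Agent.H97.TMB.KF
import Pool.Agent.H97.TMB.RP
import Pool.Agent.H97.TMB.SM

/-!
# The twelfth moment of Hecke L-functions: assembly
-/

set_option autoImplicit false

open NumberField NumberField.InfinitePlace Complex

namespace Pool.Agent.H27.TMB.All

open Pool.Agent.H27.TM Pool.Agent.H31.SW Pool.Agent.H31.SWL.All Pool.Agent.H29.DW.Base
open Pool.Agent.H29.DW.All (d_PG d_AE d_GH)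
open Pool.Agent.H29.THC.Base (c_TH c_YC c_DU c_RX c_PU c_RR c_SY)
open Pool.Agent.H29.THC.All (a_HR)

theorem m_RK : M_RK := Pool.Agent.H77.TMB.RK.pf_RK 
theorem m_MJ : M_MJ := Pool.Agent.H52.TM.pf_MJ 
theorem m_MQ : M_MQ := Pool.Agent.H79.TMB.MQ.pf_MQ w_CU
theorem m_DY : M_DY := Pool.Agent.H68.TMB.DY.pf_DY w_CU w_NB
theorem m_LO : M_LO := Pool.Agent.H27.TM.pf_LO 
theorem m_GN : M_GN := Pool.Agent.H27.TM.pf_GN 
theorem m_LA : M_LA := Pool.Agent.H42.TMB.LA.pf_LA m_LO m_GN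
theorem m_LS : M_LS := Pool.Agent.H39.TMB.LS.pf_LS m_LO w_SB
theorem m_E1 : M_E1 := Pool.Agent.H59.TMB.E1.pf_E1 m_LO w_NS
theorem m_NL : M_NL := Pool.Agent.H50.TMB.NL.pf_NL c_DU
theorem m_NZ : M_NZ := Pool.Agent.H59.TMB.NZ.pf_NZ w_CU w_NB
theorem m_DL : M_DL := Pool.Agent.H3.TMB.DL.pf_DL m_NZ
theorem m_PA : M_PA := Pool.Agent.H13.TM.pf_PA w_PO m_LA m_LS m_E1 w_WS m_NL m_DL
theorem m_P1 : M_P1 := Pool.Agent.H64.TM.P1.pf_P1 m_PA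
theorem m_DU : M_DU := Pool.Agent.H60.TMB.DU.pf_DU 
theorem m_ET : M_ET := Pool.Agent.H34.TM.ET.pf_ET m_E1
theorem m_ZT : M_ZT := Pool.Agent.H49.TMB.ZT.pf_ZT m_NZ w_WS m_NL
theorem m_CF : M_CF := Pool.Agent.H54.TMB.pf_CF m_LO
theorem m_CB : M_CB := Pool.Agent.H27.TMB.CBx.pf_CB m_LO w_NS w_OI
theorem m_WZ : M_WZ := Pool.Agent.H34.TM.WZ.pf_WZ w_WS w_NB
theorem m_PS : M_PS := Pool.Agent.H63.TMB.PS.pf_PS w_PO m_CF m_CB m_E1 m_WZ m_NL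
theorem m_DV : M_DV := Pool.Agent.H70.TMB.DV.pf_DV w_CU Pool.Agent.H29.THC.pf_DV c_DU m_NL
theorem m_SM : M_SM := Pool.Agent.H97.TMB.SM.pf_SM 
theorem m_P2 : M_P2 := Pool.Agent.H6.TM.P2.pf_P2 m_DU m_ET m_ZT m_PS m_DV m_SM m_DL
theorem m_OC : M_OC := Pool.Agent.H91.TMB.OC.pf_OC m_P1 m_P2
theorem m_RP : M_RP := Pool.Agent.H97.TMB.RP.pf_RP 
theorem m_BL : M_BL := Pool.Agent.H19.TMB.BL.pf_BL m_RK m_MJ m_MQ m_DY m_OC m_RP
theorem m_CL : M_CL := Pool.Agent.H33.TMB.CL.pf_CL 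
theorem m_TC : M_TC := Pool.Agent.H19.TMB.TC.pf_TC m_CL
theorem m_KC : M_KC := Pool.Agent.H97.TMB.KC.pf_KC m_BL m_CL m_TC
theorem m_KE : M_KE := Pool.Agent.H68.TMB.KE.pf_KE m_KC m_TC w_ME
theorem m_KF : M_KF := Pool.Agent.H97.TMB.KF.pf_KF m_KE
theorem m_RT : M_RT := Pool.Agent.H86.TMB.RT.pf_RT m_KF c_RX w_CU
theorem m_JN : M_JN := Pool.Agent.H60.TMB.JN.pf_JN 
theorem m_BI : M_BI := Pool.Agent.H55.TM.pf_BI m_RT m_JN w_IN w_MS c_RR c_YC c_FD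
theorem m_BP : M_BP := Pool.Agent.H91.TMB.BP.pf_BP w_UP w_WL m_BI u_CG c_SY
theorem m_BQ : M_BQ := Pool.Agent.H64.TM.BQ.pf_BQ w_UQ w_WL m_BI c_RR u_DC
theorem m_CT : M_CT := Pool.Agent.H33.TMB.CT.pf_CT Pool.Agent.H23.GLB.g_MV a_HR
theorem m_HM : M_HM := Pool.Agent.H33.TMB.HM.pf_HM u_AG
theorem m_SP : M_SP := Pool.Agent.H3.TMB.SP.pf_SP m_HM m_CT
theorem m_LT : M_LT := Pool.Agent.H19.TMB.LT.pf_LT m_BP m_BQ m_SP d_AE d_GH a_HR Pool.Agent.H63.HK.ds u_DC u_GE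
theorem m_TM : M_TM := Pool.Agent.H86.TMB.TM.pf_TM m_LT
theorem m_FI : M_FI := Pool.Agent.H27.TMB.FI.pf_FI m_TM u_FK Pool.Agent.H23.GLB.g_FG c_SY

end Pool.Agent.H27.TMB.All
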