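import Pool.Agent.H31.SW.Tools
import Pool.Agent.H27.TM.TargetsL

/-!
# Numbers for the correlation integral
-/

set_option autoImplicit false

open MeasureTheory Set Filter Complex

namespace Pool.Agent.H27.TMB.CBx

/-- products of numbers close to one -/
theorem dev_mul {x y : ℂ} {p q : ℝ} (hx : ‖x - 1‖ ≤ p) (hy : ‖y - 1‖ ≤ q) :
    ‖x * y - 1‖ ≤ p + q + p * q := by
  have e : x * y - 1 = (x - 1) * (y - 1) + (x - 1) + (y - 1) := by ring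
  have hp : 0 ≤ p := (norm_nonneg _).trans hx
  rw [e]
  have h1 : ‖(x - 1) * (y - 1)‖ ≤ p * q := by
    rw [norm_mul]
    exact mul_le_mul hx hy (norm_nonneg _) hp
  have h2 := norm_add_le ((x - 1) * (y - 1) + (x - 1)) (y - 1)
  have h3 := norm_add_le ((x - 1) * (y - 1)) (x - 1)
  linarith

theorem norm_of_dev {x : ℂ} {p : ℝ} (hx : ‖x - 1‖ ≤ p) : ‖x‖ ≤ 1 + p ∧ 1 - p ≤ ‖x‖ := by
  have h1 : ‖x‖ ≤ ‖x - 1‖ + ‖(1 : ℂ)‖ := by
    have := norm_add_le (x - 1) 1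
    simpa using this
  have h2 : ‖(1 : ℂ)‖ ≤ ‖(1 : ℂ) - x‖ + ‖x‖ := by
    have := norm_add_le ((1 : ℂ) - x) x
    simpa using this
  rw [norm_sub_rev] at h2
  rw [norm_one] at h1 h2
  constructor <;> linarith

/-- the second derivative, normalised -/
theorem numB {η υ a s : ℂ} (hη : ‖η‖ ≤ 1 / 200) (hυ : ‖υ‖ ≤ 1 / 400) (ha : ‖a‖ ≤ 1 / 3000)
    (hs : ‖s - 2‖ ≤ 1 / 10) (hυ0 : υ ≠ 0) :
    ‖-32 * ((2 * (1 + η) / ((1 + η) ^ 2 - a ^ 2) ^ 2 -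
      2 * (1 + η + υ) / ((1 + η + υ) ^ 2 - a ^ 2) ^ 2) / υ) +
      64 * (s * (1 + η)) / ((1 + η) ^ 2 - a ^ 2) ^ 2 + 64‖ ≤ 32 := by
  obtain ⟨A, hA⟩ : ∃ A : ℂ, A = 1 + η := ⟨_, rfl⟩
  rw [← hA]
  have hA1 : ‖A - 1‖ ≤ 1 / 200 := by
    rw [hA]
    simpa using hη
  obtain ⟨A', hA'⟩ : ∃ A' : ℂ, A' = A + υ := ⟨_, rfl⟩
  rw [← hA']
  have hA1' : ‖A' - 1‖ ≤ 3 / 400 := by
    have e : A' - 1 = (A - 1) + υ := by rw [hA']; ring
    rw [e]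
    have := norm_add_le (A - 1) υ
    linarith
  have ha2 : ‖a ^ 2‖ ≤ 1 / 9000000 := by
    rw [norm_pow]
    have := pow_le_pow_left₀ (norm_nonneg a) ha 2
    norm_num at this ⊢
    exact this
  obtain ⟨d₀, hd₀⟩ : ∃ d₀ : ℂ, d₀ = A ^ 2 - a ^ 2 := ⟨_, rfl⟩
  obtain ⟨d₁, hd₁⟩ : ∃ d₁ : ℂ, d₁ = A' ^ 2 - a ^ 2 := ⟨_, rfl⟩
  rw [← hd₀, ← hd₁]
  have k0 : ‖d₀ - 1‖ ≤ 101 / 10000 := by
    have e : d₀ - 1 = (A * A - 1) - a ^ 2 := by rw [hd₀]; ring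
    rw [e]
    have h1 := dev_mul hA1 hA1
    have h2 := norm_sub_le (A * A - 1) (a ^ 2)
    norm_num at h1
    linarith
  have k1 : ‖d₁ - 1‖ ≤ 151 / 10000 := by
    have e : d₁ - 1 = (A' * A' - 1) - a ^ 2 := by rw [hd₁]; ring
    rw [e]
    have h1 := dev_mul hA1' hA1'
    have h2 := norm_sub_le (A' * A' - 1) (a ^ 2)
    norm_num at h1
    linarith
  obtain ⟨n0a, n0b⟩ := norm_of_dev k0
  obtain ⟨n1a, n1b⟩ := norm_of_dev k1
  obtain ⟨nAa, nAb⟩ := norm_of_dev hA1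
  have z0 : d₀ ≠ 0 := by
    intro h
    rw [h, norm_zero] at n0b
    norm_num at n0b
  have z1 : d₁ ≠ 0 := by
    intro h
    rw [h, norm_zero] at n1b
    norm_num at n1b
  -- squares
  have q0 : ‖d₀ * d₀ - 1‖ ≤ 204 / 10000 := by
    have h1 := dev_mul k0 k0
    norm_num at h1
    linarith
  have q1 : ‖d₁ * d₁ - 1‖ ≤ 305 / 10000 := by
    have h1 := dev_mul k1 k1
    norm_num at h1
    linarith
  have qP : ‖(d₀ * d₀) * (d₁ * d₁) - 1‖ ≤ 516 / 10000 := by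
    have h1 := dev_mul q0 q1
    norm_num at h1
    linarith
  have qA : ‖(A * A) * d₀ - 1‖ ≤ 204 / 10000 := by
    have h1 := dev_mul hA1 hA1
    have h2 := dev_mul h1 k0
    norm_num at h2
    linarith
  -- the first term
  obtain ⟨n, hn⟩ : ∃ n : ℂ, n = -2 * (d₀ * d₀) + 8 * ((A * A) * d₀) + 4 * A * υ * d₀ +
    2 * A * υ * (2 * A + υ) ^ 2 := ⟨_, rfl⟩
  have hE : (2 * A / d₀ ^ 2 - 2 * A' / d₁ ^ 2) / υ = n / ((d₀ * d₀) * (d₁ * d₁)) := by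
    have h1 : d₁ = d₀ + υ * (2 * A + υ) := by
      rw [hd₁, hd₀, hA']
      ring
    rw [hn, hA', div_sub_div _ _ (pow_ne_zero 2 z0) (pow_ne_zero 2 z1), div_div,
      div_eq_div_iff (mul_ne_zero (mul_ne_zero (pow_ne_zero 2 z0) (pow_ne_zero 2 z1)) hυ0)
        (mul_ne_zero (mul_ne_zero z0 z0) (mul_ne_zero z1 z1))]
    have h2 : 2 * A * d₁ ^ 2 - d₀ ^ 2 * (2 * (A + υ)) = υ * (-2 * (d₀ * d₀) +
        8 * ((A * A) * d₀) + 4 * A * υ * d₀ + 2 * A * υ * (2 * A + υ) ^ 2) := by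
      rw [h1]
      ring
    rw [h2]
    ring
  have hn6 : ‖n - 6‖ ≤ 2350 / 10000 := by
    have e : n - 6 = -2 * (d₀ * d₀ - 1) + 8 * ((A * A) * d₀ - 1) + 4 * A * υ * d₀ +
        2 * A * υ * (2 * A + υ) ^ 2 := by
      rw [hn]
      ring
    rw [e]
    have h1 : ‖-2 * (d₀ * d₀ - 1)‖ ≤ 408 / 10000 := by
      rw [norm_mul, norm_neg, Complex.norm_ofNat]
      linarith
    have h2 : ‖8 * ((A * A) * d₀ - 1)‖ ≤ 1632 / 10000 := by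
      rw [norm_mul, Complex.norm_ofNat]
      linarith
    have h3 : ‖4 * A * υ * d₀‖ ≤ 103 / 10000 := by
      rw [norm_mul, norm_mul, norm_mul, Complex.norm_ofNat]
      calc 4 * ‖A‖ * ‖υ‖ * ‖d₀‖ ≤ 4 * (1 + 1 / 200) * (1 / 400) * (1 + 101 / 10000) := by
            gcongr
        _ ≤ _ := by norm_num
    have h4 : ‖2 * A + υ‖ ≤ 2 * (1 + 1 / 200) + 1 / 400 := by
      have h5 := norm_add_le (2 * A) υ
      rw [norm_mul, Complex.norm_ofNat] at h5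
      linarith
    have h5 : ‖2 * A * υ * (2 * A + υ) ^ 2‖ ≤ 204 / 10000 := by
      rw [norm_mul, norm_mul, norm_mul, norm_pow, Complex.norm_ofNat]
      calc 2 * ‖A‖ * ‖υ‖ * ‖2 * A + υ‖ ^ 2 ≤ 2 * (1 + 1 / 200) * (1 / 400) *
            (2 * (1 + 1 / 200) + 1 / 400) ^ 2 := by
            gcongr
        _ ≤ _ := by norm_num
    have h6 := norm_add_le (-2 * (d₀ * d₀ - 1) + 8 * ((A * A) * d₀ - 1) + 4 * A * υ * d₀)
      (2 * A * υ * (2 * A + υ) ^ 2)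
    have h7 := norm_add_le (-2 * (d₀ * d₀ - 1) + 8 * ((A * A) * d₀ - 1)) (4 * A * υ * d₀)
    have h8 := norm_add_le (-2 * (d₀ * d₀ - 1)) (8 * ((A * A) * d₀ - 1))
    linarith
  have hdiv : ∀ x y : ℂ, ∀ p q : ℝ, ‖y - 1‖ ≤ q → q < 1 → ‖x‖ ≤ p → ‖x / y‖ ≤ p / (1 - q) := by
    intro x y p q hy hq hx
    have h1 := (norm_of_dev hy).2
    rw [norm_div]
    have hp : 0 ≤ p := (norm_nonneg _).trans hx
    exact div_le_div₀ hp hx (by linarith) h1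
  have zP : (d₀ * d₀) * (d₁ * d₁) ≠ 0 := mul_ne_zero (mul_ne_zero z0 z0) (mul_ne_zero z1 z1)
  have t1 : ‖n / ((d₀ * d₀) * (d₁ * d₁)) - 6‖ ≤ 575 / 1000 := by
    have e : n / ((d₀ * d₀) * (d₁ * d₁)) - 6 =
        ((n - 6) - 6 * ((d₀ * d₀) * (d₁ * d₁) - 1)) / ((d₀ * d₀) * (d₁ * d₁)) := by
      rw [eq_div_iff zP, sub_mul, div_mul_cancel₀ _ zP]
      ring
    rw [e]
    have h1 : ‖(n - 6) - 6 * ((d₀ * d₀) * (d₁ * d₁) - 1)‖ ≤ 5446 / 10000 := by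
      have h2 := norm_sub_le (n - 6) (6 * ((d₀ * d₀) * (d₁ * d₁) - 1))
      rw [norm_mul, Complex.norm_ofNat] at h2
      linarith
    have h3 := hdiv _ _ _ _ qP (by norm_num) h1
    refine h3.trans ?_
    norm_num
  -- the second term
  have z02 : d₀ * d₀ ≠ 0 := mul_ne_zero z0 z0
  have t2 : ‖s * A / (d₀ * d₀) - 2‖ ≤ 155 / 1000 := by
    have e : s * A / (d₀ * d₀) - 2 = ((s - 2) * A + 2 * (A - 1) - 2 * (d₀ * d₀ - 1)) /
        (d₀ * d₀) := by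
      rw [eq_div_iff z02, sub_mul, div_mul_cancel₀ _ z02]
      ring
    rw [e]
    have h1 : ‖(s - 2) * A‖ ≤ 1005 / 10000 := by
      rw [norm_mul]
      calc ‖s - 2‖ * ‖A‖ ≤ 1 / 10 * (1 + 1 / 200) := by gcongr
        _ ≤ _ := by norm_num
    have h2 : ‖2 * (A - 1)‖ ≤ 1 / 100 := by
      rw [norm_mul, Complex.norm_ofNat]
      linarith
    have h3 : ‖2 * (d₀ * d₀ - 1)‖ ≤ 408 / 10000 := by
      rw [norm_mul, Complex.norm_ofNat]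
      linarith
    have h4 : ‖(s - 2) * A + 2 * (A - 1) - 2 * (d₀ * d₀ - 1)‖ ≤ 1513 / 10000 := by
      have h5 := norm_sub_le ((s - 2) * A + 2 * (A - 1)) (2 * (d₀ * d₀ - 1))
      have h6 := norm_add_le ((s - 2) * A) (2 * (A - 1))
      linarith
    have h7 := hdiv _ _ _ _ q0 (by norm_num) h4
    refine h7.trans ?_
    norm_num
  rw [hE]
  have e : -32 * (n / ((d₀ * d₀) * (d₁ * d₁))) + 64 * (s * A) / d₀ ^ 2 + 64 =
      -32 * (n / ((d₀ * d₀) * (d₁ * d₁)) - 6) + 64 * (s * A / (d₀ * d₀) - 2) := by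
    rw [pow_two, mul_div_assoc]
    ring
  rw [e]
  have h1 := norm_add_le (-32 * (n / ((d₀ * d₀) * (d₁ * d₁)) - 6))
    (64 * (s * A / (d₀ * d₀) - 2))
  rw [norm_mul, norm_mul, norm_neg, Complex.norm_ofNat, Complex.norm_ofNat] at h1
  linarith

end Pool.Agent.H27.TMB.CBx
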