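import Pool.Agent.H27.TMB.CBx

/-!
# The geometry of the correlation integral
-/

set_option autoImplicit false

open MeasureTheory Set Filter Complex

namespace Pool.Agent.H27.TMB.CBx

open Pool.Agent.H29.DW (dg Rl)
open Pool.Agent.H31.SW
open Pool.Agent.H27.TM

/-- the quotient of the differences -/
noncomputable def mu (α : ℝ) (u t : ℂ) : ℂ := (2 * t + u) / ((t + u) ^ 2 - (α : ℂ) ^ 2)

/-- the derivative of the phase -/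
noncomputable def pp (α : ℝ) (c c' u t : ℂ) : ℂ :=
  c * (-(2 * α) / ((t + u) ^ 2 - α ^ 2)) - c' * (-(2 * α) / (t ^ 2 - α ^ 2))

theorem norm_D {α : ℝ} {t : ℂ} (h0 : 0 < α) (h1 : α ≤ 1 / 10000) :
    ‖t‖ ^ 2 - 1 / 100000000 ≤ ‖t ^ 2 - (α : ℂ) ^ 2‖ ∧
      ‖t ^ 2 - (α : ℂ) ^ 2‖ ≤ ‖t‖ ^ 2 + 1 / 100000000 := by
  have ha : ‖(α : ℂ) ^ 2‖ ≤ 1 / 100000000 := by
    rw [norm_pow, Complex.norm_real, Real.norm_eq_abs, abs_of_pos h0]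
    nlinarith
  have h2 := norm_sub_norm_le (t ^ 2) ((α : ℂ) ^ 2)
  have h3 := norm_sub_le (t ^ 2) ((α : ℂ) ^ 2)
  rw [norm_pow t] at h2 h3
  constructor <;> linarith

theorem D_ne {α : ℝ} {t : ℂ} (h0 : 0 < α) (h1 : α ≤ 1 / 10000) (ht : 33 / 100 ≤ ‖t‖) :
    t ^ 2 - (α : ℂ) ^ 2 ≠ 0 := by
  intro h
  have h2 := (norm_D (t := t) h0 h1).1
  rw [h, norm_zero] at h2
  nlinarith

theorem pp_eq {α : ℝ} {c c' u t : ℂ} (h0 : 0 < α) (h1 : α ≤ 1 / 10000) (ht : 33 / 100 ≤ ‖t‖)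
    (htu : 33 / 100 ≤ ‖t + u‖) :
    pp α c c' u t = -(2 * α) / (t ^ 2 - α ^ 2) * ((c - c') - c * u * mu α u t) := by
  have h2 := D_ne h0 h1 ht
  have h3 := D_ne h0 h1 htu
  unfold pp mu
  field_simp
  ring

theorem pp_deriv (hLO : M_LO) {α : ℝ} {c c' u t : ℂ} (h0 : 0 < α) (h1 : α ≤ 1 / 10000)
    (ht : 33 / 100 ≤ ‖t‖) (htu : 33 / 100 ≤ ‖t + u‖) :
    HasDerivAt (fun t => c * lo α (t + u) - c' * lo α t) (pp α c c' u t) t := by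
  have h2 := (hLO.1 α t h0 h1 (by linarith)).1
  have h3 := (hLO.1 α (t + u) h0 h1 (by linarith)).1
  have h4 : HasDerivAt (fun t => lo α (t + u)) (-(2 * α) / ((t + u) ^ 2 - α ^ 2)) t :=
    HasDerivAt.comp_add_const t u h3
  exact (h4.const_mul c).sub (h2.const_mul c')

theorem Rl_pp {r : Bool} {α : ℝ} {c c' u t : ℂ} (hc : Rl r c) (hc' : Rl r c') (hu : Rl r u)
    (ht : Rl r t) : Rl r (pp α c c' u t) := by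
  have hα : Rl r (α : ℂ) := Rl_ofReal r α
  have h2 : Rl r ((2 : ℝ) : ℂ) := Rl_ofReal r 2
  have h3 : Rl r (-(2 * (α : ℂ))) := by
    have := Rl_neg (Rl_mul h2 hα)
    push_cast at this
    exact this
  unfold pp
  exact Rl_sub (Rl_mul hc (Rl_div h3 (Rl_sub (Rl_pow (Rl_add ht hu) 2) (Rl_pow hα 2))))
    (Rl_mul hc' (Rl_div h3 (Rl_sub (Rl_pow ht 2) (Rl_pow hα 2))))

/-- the points near `t₀` -/
theorem near {t₀ t u : ℂ} {δ : ℝ} (h1 : 1 / 3 ≤ ‖t₀‖) (h2 : ‖t₀‖ ≤ 2) (hδ : δ ≤ 1 / 625)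
    (ht : ‖t - t₀‖ ≤ δ) (hu : ‖u‖ ≤ 1 / 1250) :
    33 / 100 ≤ ‖t‖ ∧ ‖t‖ ≤ 201 / 100 ∧ 33 / 100 ≤ ‖t + u‖ ∧ ‖t + u‖ ≤ 201 / 100 := by
  have a1 : ‖t₀‖ ≤ ‖t‖ + ‖t - t₀‖ := by
    have := norm_sub_le t (t - t₀)
    rwa [sub_sub_cancel] at this
  have a2 : ‖t‖ ≤ ‖t₀‖ + ‖t - t₀‖ := by
    have := norm_add_le t₀ (t - t₀)
    rwa [add_sub_cancel] at this
  have a3 : ‖t‖ ≤ ‖t + u‖ + ‖u‖ := by
    have := norm_sub_le (t + u) u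
    rwa [add_sub_cancel_right] at this
  have a4 := norm_add_le t u
  refine ⟨by linarith, by linarith, by linarith, by linarith⟩

theorem mu_diff {α : ℝ} {u t t₀ : ℂ} (h0 : 0 < α) (h1 : α ≤ 1 / 10000)
    (ht : 33 / 100 ≤ ‖t + u‖) (ht₀ : 33 / 100 ≤ ‖t₀ + u‖) (hu : ‖u‖ ≤ 1 / 1250)
    (htt : ‖t - t₀‖ ≤ 1 / 1250) : ‖mu α u t - mu α u t₀‖ ≤ 20 / 1250 := by
  have n1 := D_ne h0 h1 ht
  have n2 := D_ne h0 h1 ht₀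
  have b1 := (norm_D (t := t + u) h0 h1).1
  have b2 := (norm_D (t := t₀ + u) h0 h1).1
  have ha : ‖(α : ℂ) ^ 2‖ ≤ 1 / 100000000 := by
    rw [norm_pow, Complex.norm_real, Real.norm_eq_abs, abs_of_pos h0]
    nlinarith
  have e : mu α u t - mu α u t₀ = (t₀ - t) * (2 * ((t + u) * (t₀ + u)) + 2 * (α : ℂ) ^ 2 -
      u * ((t + u) + (t₀ + u))) / (((t + u) ^ 2 - (α : ℂ) ^ 2) * ((t₀ + u) ^ 2 - (α : ℂ) ^ 2)) := by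
    unfold mu
    field_simp
    ring
  obtain ⟨A, hA⟩ : ∃ A : ℂ, A = t + u := ⟨_, rfl⟩
  obtain ⟨B, hB⟩ : ∃ B : ℂ, B = t₀ + u := ⟨_, rfl⟩
  rw [e]
  rw [← hA] at ht b1
  rw [← hB] at ht₀ b2
  rw [← hA, ← hB]
  rw [norm_div, norm_mul, norm_mul (A ^ 2 - (α : ℂ) ^ 2)]
  have hN : ‖2 * (A * B) + 2 * (α : ℂ) ^ 2 - u * (A + B)‖ ≤ 2 * (‖A‖ * ‖B‖) + 2 / 100000000 +
      1 / 1250 * (‖A‖ + ‖B‖) := by
    have c1 := norm_sub_le (2 * (A * B) + 2 * (α : ℂ) ^ 2) (u * (A + B))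
    have c2 := norm_add_le (2 * (A * B)) (2 * (α : ℂ) ^ 2)
    rw [norm_mul, norm_mul, norm_mul, Complex.norm_ofNat] at c2
    rw [norm_mul u] at c1
    have c3 : ‖u‖ * ‖A + B‖ ≤ 1 / 1250 * (‖A‖ + ‖B‖) :=
      mul_le_mul hu (norm_add_le _ _) (norm_nonneg _) (by norm_num)
    linarith
  have ht' : ‖t₀ - t‖ ≤ 1 / 1250 := by rwa [norm_sub_rev]
  have hD : 98 / 100 * (‖A‖ ^ 2 * ‖B‖ ^ 2) ≤ ‖A ^ 2 - (α : ℂ) ^ 2‖ * ‖B ^ 2 - (α : ℂ) ^ 2‖ := by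
    have d1 : 99 / 100 * ‖A‖ ^ 2 ≤ ‖A ^ 2 - (α : ℂ) ^ 2‖ := by nlinarith
    have d2 : 99 / 100 * ‖B‖ ^ 2 ≤ ‖B ^ 2 - (α : ℂ) ^ 2‖ := by nlinarith
    have d3 := mul_le_mul d1 d2 (by positivity) (norm_nonneg _)
    have d4 : 0 ≤ ‖A‖ ^ 2 * ‖B‖ ^ 2 := by positivity
    nlinarith
  have hAB : 1089 / 10000 ≤ ‖A‖ * ‖B‖ := by nlinarith
  have hM : 2 * (‖A‖ * ‖B‖) + 2 / 100000000 + 1 / 1250 * (‖A‖ + ‖B‖) ≤
      20 * (98 / 100 * (‖A‖ ^ 2 * ‖B‖ ^ 2)) := by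
    have e1 : ‖A‖ ≤ 100 / 33 * (‖A‖ * ‖B‖) := by nlinarith [norm_nonneg A]
    have e2 : ‖B‖ ≤ 100 / 33 * (‖A‖ * ‖B‖) := by nlinarith [norm_nonneg B]
    have e3 : 1089 / 10000 * (‖A‖ * ‖B‖) ≤ ‖A‖ ^ 2 * ‖B‖ ^ 2 := by nlinarith
    nlinarith
  have hpos : 0 < ‖A ^ 2 - (α : ℂ) ^ 2‖ * ‖B ^ 2 - (α : ℂ) ^ 2‖ := by
    refine lt_of_lt_of_le ?_ hD
    have : 0 < ‖A‖ := by linarith
    have : 0 < ‖B‖ := by linarith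
    positivity
  rw [div_le_iff₀ hpos]
  calc ‖t₀ - t‖ * ‖2 * (A * B) + 2 * (α : ℂ) ^ 2 - u * (A + B)‖
      ≤ 1 / 1250 * (2 * (‖A‖ * ‖B‖) + 2 / 100000000 + 1 / 1250 * (‖A‖ + ‖B‖)) :=
        mul_le_mul ht' hN (norm_nonneg _) (by norm_num)
    _ ≤ 1 / 1250 * (20 * (98 / 100 * (‖A‖ ^ 2 * ‖B‖ ^ 2))) := by
        refine mul_le_mul_of_nonneg_left hM (by norm_num)
    _ ≤ 20 / 1250 * (‖A ^ 2 - (α : ℂ) ^ 2‖ * ‖B ^ 2 - (α : ℂ) ^ 2‖) := by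
        nlinarith

/-- the lower bound for the derivative -/
theorem low {α : ℝ} {c c' u t t₀ : ℂ} (h0 : 0 < α) (h1 : α ≤ 1 / 10000)
    (h3 : 1 / 3 ≤ ‖t₀‖) (h4 : ‖t₀‖ ≤ 2) (hu : ‖u‖ ≤ 1 / 1250) (htt : ‖t - t₀‖ ≤ 1 / 1250)
    (hA : (‖c - c'‖ + 8 * ‖c * u‖) / 320 ≤ ‖(c - c') - c * u * mu α u t₀‖) :
    α * (‖c - c'‖ + 8 * ‖c * u‖) / 2200 ≤ ‖pp α c c' u t‖ := by
  obtain ⟨a1, a2, a3, a4⟩ := near h3 h4 (by norm_num) htt hu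
  obtain ⟨b1, b2, b3, b4⟩ := near (t := t₀) h3 h4 (le_refl _) (by simp) hu
  have e0 : ‖-(2 * (α : ℂ)) / (t ^ 2 - (α : ℂ) ^ 2)‖ = 2 * α / ‖t ^ 2 - (α : ℂ) ^ 2‖ := by
    rw [norm_div, norm_neg, norm_mul, Complex.norm_ofNat, Complex.norm_real, Real.norm_eq_abs,
      abs_of_pos h0]
  rw [pp_eq h0 h1 a1 a3, norm_mul (-(2 * (α : ℂ)) / (t ^ 2 - (α : ℂ) ^ 2)), e0]
  have m1 := mu_diff h0 h1 a3 b3 hu htt
  obtain ⟨κ, hκ⟩ : ∃ κ : ℝ, κ = ‖c - c'‖ + 8 * ‖c * u‖ := ⟨_, rfl⟩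
  rw [← hκ] at hA ⊢
  have hκ0 : 0 ≤ κ := by rw [hκ]; positivity
  have m2 : ‖c * u‖ * ‖mu α u t - mu α u t₀‖ ≤ κ / 8 * (20 / 1250) :=
    mul_le_mul (by rw [hκ]; linarith [norm_nonneg (c - c')]) m1 (norm_nonneg _) (by linarith)
  have m3 : ‖(c - c') - c * u * mu α u t₀‖ ≤ ‖(c - c') - c * u * mu α u t‖ +
      ‖c * u‖ * ‖mu α u t - mu α u t₀‖ := by
    rw [← norm_mul]
    have e : (c - c') - c * u * mu α u t₀ = ((c - c') - c * u * mu α u t) +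
        c * u * (mu α u t - mu α u t₀) := by ring
    rw [e]
    exact norm_add_le _ _
  have m4 : κ / 900 ≤ ‖(c - c') - c * u * mu α u t‖ := by linarith
  have d1 := (norm_D (t := t) h0 h1).2
  have d2 : ‖t ^ 2 - (α : ℂ) ^ 2‖ ≤ 405 / 100 := by nlinarith [norm_nonneg t]
  have d3 : 0 < ‖t ^ 2 - (α : ℂ) ^ 2‖ := norm_pos_iff.2 (D_ne h0 h1 a1)
  have d4 : 2 * α / (405 / 100) ≤ 2 * α / ‖t ^ 2 - (α : ℂ) ^ 2‖ := by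
    gcongr
  calc α * κ / 2200 ≤ 2 * α / (405 / 100) * (κ / 900) := by
        have : 0 ≤ α * κ := by positivity
        nlinarith
    _ ≤ _ := mul_le_mul d4 m4 (by positivity) (by positivity)

end Pool.Agent.H27.TMB.CBx
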