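import Pool.Agent.H27.TMB.CBy

/-!
# The correlation integral: the two cases
-/

set_option autoImplicit false

open MeasureTheory Set Filter Complex

namespace Pool.Agent.H27.TMB.CBx

open Pool.Agent.H29.DW (dg Rl)
open Pool.Agent.H31.SW
open Pool.Agent.H27.TM

theorem Cr_eq (r : Bool) (α : ℝ) (c c' u : ℂ) (Q : ℂ → ℂ) :
    Cr r α c c' Q u = itg r (fun t => dif u Q t * EE (c * lo α (t + u) - c' * lo α t)) := rfl

/-- the nonstationary case -/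
theorem caseA (hLO : M_LO) (hNS : W_NS) (k : ℕ) : ∃ C : ℝ, 0 ≤ C ∧ ∀ (r : Bool) (α : ℝ)
    (c c' u t₀ : ℂ) (Q : ℂ → ℂ) (G : ℝ), 0 < α → α ≤ 1 / 10000 → Rl r c → Rl r c' → Rl r u →
    0 ≤ G → 1 / 3 ≤ ‖t₀‖ → ‖t₀‖ ≤ 2 → DS (k + 3) G t₀ (1 / 2500) Q → ‖u‖ ≤ 1 / 1250 →
    (‖c - c'‖ + 8 * ‖c * u‖) / 320 ≤ ‖(c - c') - c * u * mu α u t₀‖ →
    ‖Cr r α c c' Q u‖ * (1 + α * (‖c - c'‖ + 8 * ‖c * u‖)) ^ (k + 1) ≤ C * G ^ 2 := by
  obtain ⟨C₁, hC₁, h1⟩ := hNS (k + 1) (1 / 2500) (by norm_num)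
  refine ⟨2 ^ (k + 1) * (1 + C₁ * 2 ^ (k + 1) * 2200 ^ (k + 1)), by positivity, ?_⟩
  intro r α c c' u t₀ Q G h0 h0' hc hc' hu hG ht1 ht2 hQ hu1 hA
  obtain ⟨κ, hκ⟩ : ∃ κ : ℝ, κ = ‖c - c'‖ + 8 * ‖c * u‖ := ⟨_, rfl⟩
  have hκ0 : 0 ≤ κ := by rw [hκ]; positivity
  have hlow := fun (t : ℂ) (ht : ‖t - t₀‖ ≤ 1 / 1250) =>
    low (c := c) (c' := c') h0 h0' ht1 ht2 hu1 ht hA
  rw [← hκ] at hlow ⊢
  have hbd : ‖Cr r α c c' Q u‖ ≤ G ^ 2 := by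
    rw [Cr_eq]
    have h2 : ∀ t, ‖dif u Q t * EE (c * lo α (t + u) - c' * lo α t)‖ ≤ G ^ 2 := by
      intro t
      rw [norm_mul, norm_EE, mul_one]
      unfold dif
      rw [norm_mul, RCLike.norm_conj, pow_two]
      exact mul_le_mul (DS.norm_le hG hQ _) (DS.norm_le hG hQ _) (norm_nonneg _) hG
    have h3 := norm_itg_le (r := r) (w₀ := t₀) (ρ := 1 / 2500) (by norm_num) (sq_nonneg G) h2
      (fun w hw => by
        have h4 : Q w = 0 := DS.eq_zero hQ hw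
        unfold dif
        rw [h4, map_zero, mul_zero, zero_mul])
    refine h3.trans ?_
    have := sq_nonneg G
    nlinarith
  have hc0 := norm_nonneg (Cr r α c c' Q u)
  have hP : 0 ≤ C₁ * 2 ^ (k + 1) * 2200 ^ (k + 1) := by positivity
  rcases le_or_gt (α * κ) 1 with h3 | h3
  · have h4 : (1 + α * κ) ^ (k + 1) ≤ 2 ^ (k + 1) :=
      pow_le_pow_left₀ (by positivity) (by linarith) _
    calc ‖Cr r α c c' Q u‖ * (1 + α * κ) ^ (k + 1) ≤ G ^ 2 * 2 ^ (k + 1) :=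
          mul_le_mul hbd h4 (by positivity) (by positivity)
      _ = 2 ^ (k + 1) * 1 * G ^ 2 := by ring
      _ ≤ _ := by gcongr; linarith
  · have hDS : DS (k + 1) (2 ^ (k + 1) * (G * G)) t₀ (1 / 2500) (dif u Q) :=
      DS.dif hG (hQ.of_le (by omega)) u
    have hball : ∀ w ∈ Metric.ball t₀ (2 * (1 / 2500)), ‖w - t₀‖ ≤ 1 / 1250 := by
      intro w hw
      rw [Metric.mem_ball, dist_eq_norm] at hw
      norm_num at hw
      linarith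
    have h5 := h1 r t₀ (fun t => c * lo α (t + u) - c' * lo α t) (pp α c c' u) (dif u Q)
      (2 ^ (k + 1) * (G * G)) (α * κ / 2200) (by positivity) (by positivity)
      (fun w hw => by
        obtain ⟨a1, -, a3, -⟩ := near ht1 ht2 (by norm_num) (hball w hw) hu1
        exact pp_deriv hLO h0 h0' a1 a3)
      (fun w _ hr => Rl_pp hc hc' hu hr) (fun w hw => hlow w (hball w hw)) hDS
    rw [← Cr_eq] at h5
    have h6 : (1 + α * κ) ^ (k + 1) ≤ (2 * (α * κ)) ^ (k + 1) :=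
      pow_le_pow_left₀ (by positivity) (by linarith) _
    have h7 : 0 < (α * κ) ^ (k + 1) := by positivity
    calc ‖Cr r α c c' Q u‖ * (1 + α * κ) ^ (k + 1)
        ≤ (C₁ * (2 ^ (k + 1) * (G * G)) / (α * κ / 2200) ^ (k + 1)) *
          (2 * (α * κ)) ^ (k + 1) := mul_le_mul h5 h6 (by positivity) (by positivity)
      _ = 2 ^ (k + 1) * (C₁ * 2 ^ (k + 1) * 2200 ^ (k + 1)) * G ^ 2 := by
          rw [div_pow, mul_pow 2 (α * κ)]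
          field_simp
      _ ≤ _ := by gcongr; linarith

/-- the quotient in the stationary case -/
theorem near2 {α : ℝ} {x z u t₀ : ℂ} (h0 : 0 < α) (h1 : α ≤ 1 / 10000)
    (h3 : 1 / 3 ≤ ‖t₀‖) (h4 : ‖t₀‖ ≤ 2) (hu : ‖u‖ ≤ 1 / 1250) (hz : z ≠ 0)
    (hB : ‖x - z * mu α u t₀‖ < (‖x‖ + 8 * ‖z‖) / 320) : ‖t₀ * (x / z) - 2‖ ≤ 1 / 10 := by
  have ht0 : t₀ ≠ 0 := by
    intro h
    rw [h, norm_zero] at h3
    norm_num at h3
  have hzp : 0 < ‖z‖ := norm_pos_iff.2 hz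
  have htp : 0 < ‖t₀‖ := norm_pos_iff.2 ht0
  obtain ⟨υ, hυ⟩ : ∃ υ : ℂ, υ = u / t₀ := ⟨_, rfl⟩
  obtain ⟨a, ha⟩ : ∃ a : ℂ, a = (α : ℂ) / t₀ := ⟨_, rfl⟩
  have nυ : ‖υ‖ ≤ 24 / 10000 := by
    rw [hυ, norm_div, div_le_iff₀ htp]
    linarith
  have na : ‖a ^ 2‖ ≤ 1 / 1000000 := by
    have : ‖a‖ ≤ 3 / 10000 := by
      rw [ha, norm_div, Complex.norm_real, Real.norm_eq_abs, abs_of_pos h0, div_le_iff₀ htp]
      linarith
    rw [norm_pow]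
    nlinarith [norm_nonneg a]
  obtain ⟨m, hm⟩ : ∃ m : ℂ, m = t₀ * mu α u t₀ := ⟨_, rfl⟩
  have em : m = (2 + υ) / ((1 + υ) ^ 2 - a ^ 2) := by
    have e1 : (1 + υ) ^ 2 - a ^ 2 = ((t₀ + u) ^ 2 - (α : ℂ) ^ 2) / t₀ ^ 2 := by
      rw [hυ, ha]
      field_simp
    have e2 : 2 + υ = (2 * t₀ + u) / t₀ := by
      rw [hυ]
      field_simp
    obtain ⟨-, -, b3, -⟩ := near (t := t₀) h3 h4 (le_refl _) (by simp) hu
    have e3 := D_ne h0 h1 b3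
    rw [hm, e1, e2]
    unfold mu
    field_simp
  have hυ2 : ‖υ ^ 2‖ ≤ 1 / 100000 := by
    rw [norm_pow]
    nlinarith [norm_nonneg υ]
  have hd : ‖(1 + υ) ^ 2 - a ^ 2 - 1‖ ≤ 1 / 100 := by
    have e : (1 + υ) ^ 2 - a ^ 2 - 1 = 2 * υ + υ ^ 2 - a ^ 2 := by ring
    rw [e]
    have f1 := norm_sub_le (2 * υ + υ ^ 2) (a ^ 2)
    have f2 := norm_add_le (2 * υ) (υ ^ 2)
    rw [norm_mul, Complex.norm_ofNat] at f2
    linarith
  have hd2 := (norm_of_dev hd).2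
  have hdne : (1 + υ) ^ 2 - a ^ 2 ≠ 0 := by
    intro h
    rw [h, norm_zero] at hd2
    norm_num at hd2
  have hm2 : ‖m - 2‖ ≤ 76 / 10000 := by
    have e : m - 2 = (-(3 * υ) - 2 * υ ^ 2 + 2 * a ^ 2) / ((1 + υ) ^ 2 - a ^ 2) := by
      rw [em, eq_div_iff hdne, sub_mul, div_mul_cancel₀ _ hdne]
      ring
    have f1 := norm_add_le (-(3 * υ) - 2 * υ ^ 2) (2 * a ^ 2)
    have f2 := norm_sub_le (-(3 * υ)) (2 * υ ^ 2)
    rw [norm_neg, norm_mul, norm_mul, Complex.norm_ofNat, Complex.norm_ofNat] at f2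
    rw [norm_mul 2 (a ^ 2), Complex.norm_ofNat] at f1
    rw [e, norm_div, div_le_iff₀ (by linarith)]
    have : 76 / 10000 * (1 - 1 / 100) ≤ 76 / 10000 * ‖(1 + υ) ^ 2 - a ^ 2‖ := by gcongr
    linarith
  obtain ⟨s, hs⟩ : ∃ s : ℂ, s = t₀ * (x / z) := ⟨_, rfl⟩
  rw [← hs]
  have hsm : ‖s - m‖ ≤ (‖s‖ + 16) / 320 := by
    have e : s - m = t₀ / z * (x - z * mu α u t₀) := by
      rw [hs, hm]
      field_simp
    have e2 : ‖s‖ = ‖t₀‖ / ‖z‖ * ‖x‖ := by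
      rw [hs, norm_mul, norm_div]
      ring
    rw [e, norm_mul, norm_div, e2]
    have hq : 0 ≤ ‖t₀‖ / ‖z‖ := by positivity
    calc ‖t₀‖ / ‖z‖ * ‖x - z * mu α u t₀‖ ≤ ‖t₀‖ / ‖z‖ * ((‖x‖ + 8 * ‖z‖) / 320) :=
          mul_le_mul_of_nonneg_left hB.le hq
      _ = (‖t₀‖ / ‖z‖ * ‖x‖ + 8 * ‖t₀‖) / 320 := by
          field_simp
      _ ≤ _ := by gcongr; linarith
  have g1 : ‖s - 2‖ ≤ ‖s - m‖ + ‖m - 2‖ := by
    have := norm_add_le (s - m) (m - 2)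
    rwa [sub_add_sub_cancel] at this
  have g2 : ‖s‖ ≤ ‖s - 2‖ + 2 := by
    have := norm_add_le (s - 2) 2
    rwa [sub_add_cancel, Complex.norm_ofNat] at this
  linarith

end Pool.Agent.H27.TMB.CBx
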