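import Pool.Agent.H27.TMB.Stmt
import Pool.Agent.H23.GLB.Avg

/-!
# Moments: from separated points to integrals and large values
-/

set_option autoImplicit false

open NumberField NumberField.InfinitePlace NumberField.Units MeasureTheory Set Filter Complex
open scoped ENNReal

namespace Pool.Agent.H27.TMB

open Pool.Agent.H23.LC Pool.Agent.H29.DW

section

variable {K : Type} [Field K] [NumberField K] {f : Ideal (𝓞 K)}

theorem mom {L : HG K f → ℂ → ℂ} (hLc : ∀ χ, Continuous fun t : ℝ => L χ (1 / 2 + t * I))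
    {T : ℝ} (hT : 1 ≤ T) (hfin : (box K f T).Finite) (j : ℕ) {M : ℝ} (hM0 : 0 ≤ M)
    (hsep0 : ∀ P : HG K f → Finset ℝ,
      (∀ χ, ∀ t ∈ P χ, |t| ≤ T ∧ ∀ t' ∈ P χ, t ≠ t' → 1 ≤ |t - t'|) →
      ∑ᶠ χ ∈ box K f T, ∑ t ∈ P χ, ‖L χ (1 / 2 + t * I)‖ ^ j ≤ M) : MomBd L T j M := by
  classical
  set S : Finset (HG K f) := hfin.toFinset with hS
  have hSm : ∀ χ, χ ∈ S ↔ χ ∈ box K f T := fun χ => hfin.mem_toFinset
  have hsepr : ∀ P : HG K f → Finset ℝ,
      (∀ χ, ∀ t ∈ P χ, |t| ≤ T ∧ ∀ t' ∈ P χ, t ≠ t' → 1 ≤ |t - t'|) →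
      ∑ χ ∈ S, ∑ t ∈ P χ, ‖L χ (1 / 2 + t * I)‖ ^ j ≤ M := by
    intro P hP
    have h := hsep0 P hP
    rw [finsum_mem_eq_finite_toFinset_sum _ hfin] at h
    exact h
  have hsep : ∀ P : HG K f → Finset ℝ,
      (∀ χ, ∀ t ∈ P χ, |t| ≤ T ∧ ∀ t' ∈ P χ, t ≠ t' → 1 ≤ |t - t'|) →
      ∑ χ ∈ S, ∑ t ∈ P χ, ENNReal.ofReal (‖L χ (1 / 2 + t * I)‖ ^ j) ≤
        ENNReal.ofReal M := by
    intro P hP
    have e : ∑ χ ∈ S, ∑ t ∈ P χ, ENNReal.ofReal (‖L χ (1 / 2 + t * I)‖ ^ j) =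
        ENNReal.ofReal (∑ χ ∈ S, ∑ t ∈ P χ, ‖L χ (1 / 2 + t * I)‖ ^ j) := by
      rw [ENNReal.ofReal_sum_of_nonneg (fun χ _ => Finset.sum_nonneg fun t _ => by positivity)]
      refine Finset.sum_congr rfl fun χ _ => ?_
      rw [ENNReal.ofReal_sum_of_nonneg (fun t _ => by positivity)]
    rw [e]
    exact ENNReal.ofReal_le_ofReal (hsepr P hP)
  have hmeas : ∀ χ : HG K f, Measurable fun t : ℝ =>
      ENNReal.ofReal (‖L χ (1 / 2 + t * I)‖ ^ j) := fun χ =>
    ENNReal.measurable_ofReal.comp ((hLc χ).norm.pow j).measurable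
  have hint : ∑ χ ∈ S, ∫⁻ t in Icc (-T) T, ENNReal.ofReal (‖L χ (1 / 2 + t * I)‖ ^ j) ≤
      ENNReal.ofReal M := by
    rw [← lintegral_finsetSum _ (fun χ _ => hmeas χ)]
    refine Pool.Agent.H23.GLB.avg T _ (Finset.measurable_sum _ fun χ _ => hmeas χ) _ ?_
    intro P hP hPT
    rw [Finset.sum_comm]
    exact hsep (fun _ => P) (fun χ t ht => ⟨hPT t ht, fun t' ht' hne => hP t ht t' ht' hne⟩)
  refine ⟨hsep0, ?_, ?_⟩
  · rw [finsum_mem_eq_finite_toFinset_sum _ hfin]
    have e : ∀ χ : HG K f, ∫ t in (-T)..T, ‖L χ (1 / 2 + t * I)‖ ^ j =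
        (∫⁻ t in Icc (-T) T, ENNReal.ofReal (‖L χ (1 / 2 + t * I)‖ ^ j)).toReal := by
      intro χ
      rw [intervalIntegral.integral_of_le (by linarith), ← integral_Icc_eq_integral_Ioc]
      have hc2 : Continuous fun t : ℝ => ‖L χ (1 / 2 + t * I)‖ ^ j := (hLc χ).norm.pow j
      rw [integral_eq_lintegral_of_nonneg_ae (Filter.Eventually.of_forall fun t => by positivity)
        hc2.aestronglyMeasurable]
    have hfi : ∀ χ ∈ S, ∫⁻ t in Icc (-T) T, ENNReal.ofReal (‖L χ (1 / 2 + t * I)‖ ^ j) ≠ ⊤ := by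
      intro χ hχ
      have := (Finset.single_le_sum (f := fun χ => ∫⁻ t in Icc (-T) T,
        ENNReal.ofReal (‖L χ (1 / 2 + t * I)‖ ^ j)) (fun _ _ => zero_le) hχ).trans hint
      exact ne_top_of_le_ne_top ENNReal.ofReal_ne_top this
    simp_rw [e]
    rw [← ENNReal.toReal_sum hfi]
    exact ENNReal.toReal_le_of_le_ofReal hM0 hint
  · intro V hV
    have hV2 : 0 < V ^ j := by positivity
    constructor
    · -- the number of the exceptional characters
      set A : Set (HG K f) := {χ ∈ box K f T | ∃ t : ℝ, |t| ≤ T ∧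
        V < ‖L χ (1 / 2 + t * I)‖} with hA
      have hAf : A.Finite := hfin.subset fun χ hχ => hχ.1
      have hex : ∀ χ : HG K f, ∃ t : ℝ, χ ∈ A → |t| ≤ T ∧ V < ‖L χ (1 / 2 + t * I)‖ := by
        intro χ
        by_cases h : χ ∈ A
        · obtain ⟨t, ht⟩ := h.2
          exact ⟨t, fun _ => ht⟩
        · exact ⟨0, fun hh => absurd hh h⟩
      choose τ hτ using hex
      have h1 := hsepr (fun χ => if χ ∈ A then {τ χ} else ∅) (by
        intro χ t ht
        by_cases h : χ ∈ A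
        · rw [if_pos h, Finset.mem_singleton] at ht
          subst ht
          refine ⟨(hτ χ h).1, fun t' ht' hne => ?_⟩
          rw [if_pos h, Finset.mem_singleton] at ht'
          exact absurd ht'.symm hne
        · rw [if_neg h] at ht
          exact absurd ht (Finset.notMem_empty t))
      have h2 : (A.ncard : ℝ) * V ^ j ≤
          ∑ χ ∈ S, ∑ t ∈ (if χ ∈ A then {τ χ} else ∅ : Finset ℝ),
            ‖L χ (1 / 2 + t * I)‖ ^ j := by
        calc (A.ncard : ℝ) * V ^ j = ∑ _χ ∈ hAf.toFinset, V ^ j := by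
              rw [Finset.sum_const, nsmul_eq_mul, Set.ncard_eq_toFinset_card _ hAf]
          _ ≤ ∑ χ ∈ hAf.toFinset, ∑ t ∈ (if χ ∈ A then {τ χ} else ∅ : Finset ℝ),
              ‖L χ (1 / 2 + t * I)‖ ^ j := by
              refine Finset.sum_le_sum fun χ hχ => ?_
              have hχA : χ ∈ A := hAf.mem_toFinset.1 hχ
              rw [if_pos hχA, Finset.sum_singleton]
              exact pow_le_pow_left₀ hV.le (hτ χ hχA).2.le j
          _ ≤ _ := by
              refine Finset.sum_le_sum_of_subset_of_nonneg ?_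
                (fun χ _ _ => Finset.sum_nonneg fun t _ => by positivity)
              intro χ hχ
              exact (hSm χ).2 (hAf.mem_toFinset.1 hχ).1
      rw [le_div_iff₀ hV2]
      exact h2.trans h1
    · -- the measure
      rw [finsum_mem_eq_finite_toFinset_sum _ hfin]
      have hch : ∀ χ : HG K f, ENNReal.ofReal (V ^ j) *
          volume {t : ℝ | |t| ≤ T ∧ V < ‖L χ (1 / 2 + t * I)‖} ≤
          ∫⁻ t in Icc (-T) T, ENNReal.ofReal (‖L χ (1 / 2 + t * I)‖ ^ j) := by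
        intro χ
        refine le_trans ?_ (mul_meas_ge_le_lintegral (hmeas χ) (ENNReal.ofReal (V ^ j)))
        refine mul_le_mul_right ?_ _
        rw [Measure.restrict_apply (measurableSet_le measurable_const (hmeas χ))]
        refine measure_mono fun t ht => ⟨?_, abs_le.1 ht.1⟩
        exact ENNReal.ofReal_le_ofReal (pow_le_pow_left₀ hV.le ht.2.le j)
      have hfi : ∀ χ ∈ S, volume {t : ℝ | |t| ≤ T ∧ V < ‖L χ (1 / 2 + t * I)‖} ≠ ⊤ := by
        intro χ _
        refine ne_top_of_le_ne_top (b := volume (Icc (-T) T)) (by simp)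
          (measure_mono fun t ht => ?_)
        exact abs_le.1 ht.1
      rw [← ENNReal.toReal_sum hfi, le_div_iff₀ hV2]
      have h3 : ENNReal.ofReal (V ^ j) * ∑ χ ∈ S,
          volume {t : ℝ | |t| ≤ T ∧ V < ‖L χ (1 / 2 + t * I)‖} ≤ ENNReal.ofReal M := by
        rw [Finset.mul_sum]
        exact (Finset.sum_le_sum fun χ _ => hch χ).trans hint
      have h4 := ENNReal.toReal_le_of_le_ofReal hM0 h3
      rw [ENNReal.toReal_mul, ENNReal.toReal_ofReal hV2.le] at h4
      linarith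

end

end Pool.Agent.H27.TMB
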