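import Pool.Agent.H29.DW.Stmt

/-!
# Uniqueness of the continuation
-/

set_option autoImplicit false

open NumberField NumberField.InfinitePlace Complex Set Filter Topology

namespace Pool.Agent.H27.TMB

open Pool.Agent.H23.LC Pool.Agent.H29.DW

private theorem conn : IsPreconnected ({0, 1}ᶜ : Set ℂ) := by
  have h : ({0, 1} : Set ℂ).Countable := by
    exact (Set.countable_singleton _).insert _
  refine (h.isPathConnected_compl_of_one_lt_rank ?_).isConnected.isPreconnected
  rw [Complex.rank_real_complex]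
  exact Nat.one_lt_ofNat

theorem con_unique {K : Type} [Field K] [NumberField K] {f : Ideal (𝓞 K)} {χ : HG K f}
    {L L' : ℂ → ℂ} (h : IsCon χ L) (h' : IsCon χ L') (s : ℂ) (h0 : s ≠ 0) (h1 : s ≠ 1) :
    L s = L' s := by
  have hop : IsOpen ({0, 1}ᶜ : Set ℂ) := by
    exact (Set.toFinite ({0, 1} : Set ℂ)).isClosed.isOpen_compl
  have ha : AnalyticOnNhd ℂ L ({0, 1}ᶜ : Set ℂ) := by
    refine DifferentiableOn.analyticOnNhd ?_ hop
    intro z hz
    simp only [mem_compl_iff, mem_insert_iff, mem_singleton_iff, not_or] at hz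
    exact (h.2.1 z hz.1 hz.2).differentiableWithinAt
  have ha' : AnalyticOnNhd ℂ L' ({0, 1}ᶜ : Set ℂ) := by
    refine DifferentiableOn.analyticOnNhd ?_ hop
    intro z hz
    simp only [mem_compl_iff, mem_insert_iff, mem_singleton_iff, not_or] at hz
    exact (h'.2.1 z hz.1 hz.2).differentiableWithinAt
  have h2 : (2 : ℂ) ∈ ({0, 1}ᶜ : Set ℂ) := by
    simp
  have hev : L =ᶠ[𝓝 (2 : ℂ)] L' := by
    have ho : IsOpen {z : ℂ | 1 < z.re} := isOpen_lt continuous_const Complex.continuous_re
    filter_upwards [ho.mem_nhds (show (2 : ℂ) ∈ {z : ℂ | 1 < z.re} by simp)] with z hz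
    rw [h.1 z hz, h'.1 z hz]
  exact ha.eqOn_of_preconnected_of_eventuallyEq ha' conn h2 hev (by simp [h0, h1])

theorem half_ne (t : ℝ) : (1 / 2 + t * I : ℂ) ≠ 0 ∧ (1 / 2 + t * I : ℂ) ≠ 1 := by
  constructor
  · intro hh
    have := congrArg Complex.re hh
    simp at this
  · intro hh
    have := congrArg Complex.re hh
    simp at this

theorem con_half {K : Type} [Field K] [NumberField K] {f : Ideal (𝓞 K)} {χ : HG K f}
    {L L' : ℂ → ℂ} (h : IsCon χ L) (h' : IsCon χ L') (t : ℝ) :
    L (1 / 2 + t * I) = L' (1 / 2 + t * I) :=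
  con_unique h h' _ (half_ne t).1 (half_ne t).2

end Pool.Agent.H27.TMB
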