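import Pool.Agent.H27.TM.TargetsA
import Pool.Agent.H27.TMB.Mom
import Pool.Agent.H27.TMB.Uni
import Pool.Agent.H23.LC.Targets
import Pool.Agent.H23.LB.Targets

/-!
# The mean square and the twelfth moment
-/

set_option autoImplicit false

open NumberField NumberField.InfinitePlace NumberField.Units
  NumberField.Units.dirichletUnitTheorem MeasureTheory Set Filter Complex
open scoped nonZeroDivisors ENNReal

namespace Pool.Agent.H27.TMB

open Pool.Agent.H25.HK Pool.Agent.H23.LB Pool.Agent.H23.LC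
open Pool.Agent.H31.SW (PP dK)
open Pool.Agent.H27.TM Pool.Agent.H29.DW

section NF

variable {K : Type} [Field K] [NumberField K] {f : Ideal (𝓞 K)}

private lemma cont_L {L : ℂ → ℂ} (h : ∀ s : ℂ, s ≠ 0 → s ≠ 1 → DifferentiableAt ℂ L s) :
    Continuous fun t : ℝ => L (1 / 2 + t * I) := by
  rw [continuous_iff_continuousAt]
  intro t
  exact ContinuousAt.comp (f := fun t : ℝ => (1 / 2 + t * I : ℂ))
    (h _ (half_ne t).1 (half_ne t).2).continuousAt (by fun_prop)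

private lemma disc_ge : 1 ≤ |(discr K : ℝ)| := by
  have h : (1 : ℤ) ≤ |discr K| := Int.one_le_abs (discr_ne_zero K)
  have h2 : ((1 : ℤ) : ℝ) ≤ ((|discr K| : ℤ) : ℝ) := by exact_mod_cast h
  simpa using h2

private lemma Nf_ge (hf : f ≠ ⊥) : 1 ≤ (Ideal.absNorm f : ℝ) := by
  have h : Ideal.absNorm f ≠ 0 := fun h => hf (Ideal.absNorm_eq_zero_iff.1 h)
  exact_mod_cast Nat.one_le_iff_ne_zero.2 h

private lemma one_le_PPT {T : InfinitePlace K → ℝ} (hT : ∀ v, 1 ≤ T v) : 1 ≤ PP T := by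
  unfold PP
  have h : ∏ v : InfinitePlace K, (1 : ℝ) ≤ ∏ v : InfinitePlace K, T v ^ v.mult :=
    Finset.prod_le_prod (fun _ _ => zero_le_one) fun v _ => one_le_pow₀ (hT v)
  simpa using h

private lemma sum_pairs (S : Finset (HG K f)) (P : HG K f → Finset ℝ) (F : HG K f → ℝ → ℝ) :
    ∃ S' : Finset (HG K f × ℝ), (∀ q, q ∈ S' ↔ q.1 ∈ S ∧ q.2 ∈ P q.1) ∧
      ∑ q ∈ S', F q.1 q.2 = ∑ χ ∈ S, ∑ t ∈ P χ, F χ t := by
  have hinj : Function.Injective (fun x : (_ : HG K f) × ℝ => (x.1, x.2)) := by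
    rintro ⟨a, b⟩ ⟨c, d⟩ h
    have h1 := congrArg Prod.fst h
    have h2 := congrArg Prod.snd h
    change a = c at h1
    change b = d at h2
    subst h1
    subst h2
    rfl
  refine ⟨(S.sigma P).map ⟨_, hinj⟩, fun q => ?_, ?_⟩
  · rw [Finset.mem_map]
    constructor
    · rintro ⟨x, hx, rfl⟩
      rw [Finset.mem_sigma] at hx
      exact hx
    · intro hq
      exact ⟨⟨q.1, q.2⟩, Finset.mem_sigma.2 hq, rfl⟩
  · rw [Finset.sum_map, Finset.sum_sigma]
    rfl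

end NF

/-- the mean square: the statement of `HeckeMeanSquare` (first parts) -/
def MS (m : ℕ) : Prop :=
  ∃ C B c : ℝ, 0 < c ∧ ∀ (K : Type) [Field K] [NumberField K],
      Module.finrank ℚ K = m → ∀ f : Ideal (𝓞 K), f ≠ ⊥ →
      ∃ L : HG K f → ℂ → ℂ,
        (∀ χ : HG K f, (∀ s : ℂ, 1 < s.re → L χ s = χ.series s) ∧
          (∀ s : ℂ, s ≠ 0 → s ≠ 1 → DifferentiableAt ℂ (L χ) s) ∧
          ((∃ I : Ideal (𝓞 K), χ.ψ I ≠ 0 ∧ χ.ψ I ≠ 1) → Differentiable ℂ (L χ))) ∧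
        ∀ T : ℝ, 1 ≤ T →
          (box K f T).Finite ∧
          c * (T ^ (m - 1) * (classNumber K * regulator K * Phi K f)) ≤ (box K f T).ncard ∧
          (∀ P : HG K f → Finset ℝ,
            (∀ χ, ∀ t ∈ P χ, |t| ≤ T ∧ ∀ t' ∈ P χ, t ≠ t' → 1 ≤ |t - t'|) →
            ∑ᶠ χ ∈ box K f T, ∑ t ∈ P χ, ‖L χ (1 / 2 + t * I)‖ ^ 2 ≤
              C * Real.log (3 + |(discr K : ℝ)| * Ideal.absNorm f * T) ^ B *
                (T ^ m * (classNumber K * regulator K * Phi K f)))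

/-- the theorem -/
theorem fin (hTM : M_TM) (hFK : U_FK) (hSY : T_SY) (m : ℕ) (hm : 1 ≤ m) (hMS : MS m) :
    ∃ B c : ℝ, 0 < c ∧ ∀ ε : ℝ, 0 < ε → ∃ C : ℝ, ∀ (K : Type) [Field K] [NumberField K],
      Module.finrank ℚ K = m → ∀ f : Ideal (𝓞 K), f ≠ ⊥ → ∃ L : HG K f → ℂ → ℂ,
      (∀ χ : HG K f, IsCon χ (L χ)) ∧
      (∀ (T : InfinitePlace K → ℝ) (S : Finset (HG K f × ℝ)), (∀ v, 1 ≤ T v) →
        (∀ p ∈ S, ∀ q ∈ S, p.1 = q.1 → p.2 ≠ q.2 → 1 ≤ |p.2 - q.2|) →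
        (∀ q ∈ S, ∀ v : InfinitePlace K, 1 + |q.2 - q.1.ν v| + |(q.1.k v : ℝ)| ≤ T v) →
        ∑ q ∈ S, ‖L q.1 (1 / 2 + q.2 * I)‖ ^ 12 ≤
          C * (|(discr K : ℝ)| * Ideal.absNorm f) ^ B * (∏ v, T v ^ v.mult) ^ (2 + ε)) ∧
      ∀ T : ℝ, 1 ≤ T → (box K f T).Finite ∧
        c * (T ^ (m - 1) * (classNumber K * regulator K * Phi K f)) ≤ (box K f T).ncard ∧
        MomBd L T 2 (B * Real.log (3 + |(discr K : ℝ)| * Ideal.absNorm f * T) ^ B *
          (T ^ m * (classNumber K * regulator K * Phi K f))) ∧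
        MomBd L T 12 (C * (|(discr K : ℝ)| * Ideal.absNorm f) ^ B * T ^ (2 * m + ε)) := by
  obtain ⟨B₀, hB₀, h⟩ := hTM m hm
  obtain ⟨C₂, B₂, c, hc, h₂⟩ := hMS
  set B : ℝ := max B₀ (max B₂ |C₂|) with hBdef
  have hB0 : B₀ ≤ B := le_max_left _ _
  have hB2 : B₂ ≤ B := (le_max_left _ _).trans (le_max_right _ _)
  have hBC : C₂ ≤ B := (le_abs_self _).trans ((le_max_right _ _).trans (le_max_right _ _))
  have hB : 0 ≤ B := hB₀.trans hB0
  refine ⟨B, c, hc, fun ε hε => ?_⟩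
  have hm0 : (0 : ℝ) < m := by exact_mod_cast hm
  set e₁ : ℝ := min ε 1 with he₁
  have he10 : 0 < e₁ := lt_min hε one_pos
  have he11 : e₁ ≤ 1 := min_le_right _ _
  have he1ε : e₁ ≤ ε := min_le_left _ _
  set e₂ : ℝ := e₁ / m with he₂
  have hm1 : (1 : ℝ) ≤ m := by exact_mod_cast hm
  have he20 : 0 < e₂ := by positivity
  have he21 : e₂ ≤ 1 := by
    rw [he₂, div_le_one hm0]
    linarith
  obtain ⟨C₁, hC₁, h1⟩ := h e₁ he10 he11
  obtain ⟨C₄, hC₄, h2⟩ := h e₂ he20 he21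
  set C₃ : ℝ := C₄ * (4 : ℝ) ^ (m * (2 + e₂)) with hC₃
  have hC₃0 : 0 ≤ C₃ := by positivity
  set C : ℝ := max C₁ C₃ with hCdef
  have hC0 : 0 ≤ C := hC₁.trans (le_max_left _ _)
  refine ⟨C, ?_⟩
  intro K _ _ hK f hf
  classical
  obtain ⟨Y⟩ := hSY K f hf
  choose L hL hLd using fun χ : HG K f => hFK K f hf Y χ
  have hCon : ∀ χ : HG K f, IsCon χ (L χ) := fun χ => ⟨(hL χ).1, (hL χ).2.1, hLd χ⟩
  have hd := disc_ge (K := K)
  have hN := Nf_ge hf
  have hdN : 1 ≤ |(discr K : ℝ)| * (Ideal.absNorm f : ℝ) :=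
    one_le_mul_of_one_le_of_one_le hd hN
  have hdNB : (|(discr K : ℝ)| * (Ideal.absNorm f : ℝ)) ^ B₀ ≤
      (|(discr K : ℝ)| * (Ideal.absNorm f : ℝ)) ^ B :=
    Real.rpow_le_rpow_of_exponent_le hdN hB0
  have hreg : 0 < regulator K := regulator_pos K
  obtain ⟨L₂, hL₂, hL₂'⟩ := h₂ K hK f hf
  have heq : ∀ (χ : HG K f) (t : ℝ), L₂ χ (1 / 2 + t * I) = L χ (1 / 2 + t * I) := fun χ t =>
    con_half (hL₂ χ) (hCon χ) t
  have hLc : ∀ χ : HG K f, Continuous fun t : ℝ => L χ (1 / 2 + t * I) := fun χ =>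
    cont_L (hL χ).2.1
  refine ⟨L, hCon, ?_, ?_⟩
  · intro T S hT hS1 hS2
    have h3 := h1 K hK f hf Y L hL T S hT hS2 hS1
    refine h3.trans ?_
    have hP := one_le_PPT hT
    have e : (∏ v, T v ^ v.mult) = PP T := rfl
    rw [e]
    have e2 : dK K * Nf K f = |(discr K : ℝ)| * (Ideal.absNorm f : ℝ) := rfl
    rw [e2, ← mul_assoc]
    have h4 : PP T ^ (2 + e₁) ≤ PP T ^ (2 + ε) :=
      Real.rpow_le_rpow_of_exponent_le hP (by linarith)
    have h5 : C₁ ≤ C := le_max_left _ _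
    gcongr
  · intro T hT
    have hT0 : 0 < T := by linarith
    obtain ⟨hfin, hcard, hsq⟩ := hL₂' T hT
    refine ⟨hfin, hcard, ?_, ?_⟩
    · -- the mean square
      have hx : 1 ≤ |(discr K : ℝ)| * (Ideal.absNorm f : ℝ) * T :=
        one_le_mul_of_one_le_of_one_le hdN hT
      have hl : 1 ≤ Real.log (3 + |(discr K : ℝ)| * (Ideal.absNorm f : ℝ) * T) := by
        rw [Real.le_log_iff_exp_le (by linarith)]
        have := Real.exp_one_lt_d9
        linarith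
      have hl0 : 0 < Real.log (3 + |(discr K : ℝ)| * (Ideal.absNorm f : ℝ) * T) := by linarith
      refine mom hLc hT hfin 2 (by positivity) ?_
      intro P hP
      have h3 := hsq P hP
      simp only [heq] at h3
      refine h3.trans ?_
      have h4 : Real.log (3 + |(discr K : ℝ)| * (Ideal.absNorm f : ℝ) * T) ^ B₂ ≤
          Real.log (3 + |(discr K : ℝ)| * (Ideal.absNorm f : ℝ) * T) ^ B :=
        Real.rpow_le_rpow_of_exponent_le hl hB2
      have h5 : (0 : ℝ) ≤ Real.log (3 + |(discr K : ℝ)| * (Ideal.absNorm f : ℝ) * T) ^ B₂ :=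
        Real.rpow_nonneg hl0.le _
      have h6 : C₂ * Real.log (3 + |(discr K : ℝ)| * (Ideal.absNorm f : ℝ) * T) ^ B₂ ≤
          B * Real.log (3 + |(discr K : ℝ)| * (Ideal.absNorm f : ℝ) * T) ^ B :=
        (mul_le_mul_of_nonneg_right hBC h5).trans (mul_le_mul_of_nonneg_left h4 hB)
      exact mul_le_mul_of_nonneg_right h6 (by positivity)
    · -- the twelfth moment
      set S : Finset (HG K f) := hfin.toFinset with hS
      have hSm : ∀ χ, χ ∈ S ↔ χ ∈ box K f T := fun χ => hfin.mem_toFinset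
      refine mom hLc hT hfin 12 (by positivity) ?_
      intro P hP
      rw [finsum_mem_eq_finite_toFinset_sum _ hfin]
      obtain ⟨S', hS', e1⟩ := sum_pairs S P (fun χ t => ‖L χ (1 / 2 + t * I)‖ ^ 12)
      rw [← e1]
      have hT4 : ∀ v : InfinitePlace K, 1 ≤ (fun _ : InfinitePlace K => 4 * T) v := by
        intro v
        show 1 ≤ 4 * T
        linarith
      have h3 := h2 K hK f hf Y L hL (fun _ => 4 * T) S' hT4 ?_ ?_
      · refine h3.trans ?_
        have hPP : PP (fun _ : InfinitePlace K => 4 * T) = (4 * T) ^ m := by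
          unfold PP
          rw [Finset.prod_pow_eq_pow_sum, NumberField.InfinitePlace.sum_mult_eq, hK]
        have e2 : dK K * Nf K f = |(discr K : ℝ)| * (Ideal.absNorm f : ℝ) := rfl
        rw [hPP, e2]
        have h4 : ((4 * T) ^ m : ℝ) ^ (2 + e₂) ≤ (4 : ℝ) ^ (m * (2 + e₂)) * T ^ (2 * m + ε) := by
          rw [← Real.rpow_natCast, ← Real.rpow_mul (by positivity),
            Real.mul_rpow (by norm_num) hT0.le]
          refine mul_le_mul_of_nonneg_left ?_ (by positivity)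
          refine Real.rpow_le_rpow_of_exponent_le hT ?_
          rw [he₂]
          have : (m : ℝ) * (2 + e₁ / m) = 2 * m + e₁ := by
            field_simp
          rw [this]
          linarith
        have h5 : C₃ ≤ C := le_max_right _ _
        calc C₄ * ((|(discr K : ℝ)| * (Ideal.absNorm f : ℝ)) ^ B₀ * ((4 * T) ^ m) ^ (2 + e₂))
            ≤ C₄ * ((|(discr K : ℝ)| * (Ideal.absNorm f : ℝ)) ^ B *
              ((4 : ℝ) ^ (m * (2 + e₂)) * T ^ (2 * m + ε))) := by gcongr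
          _ = C₃ * (|(discr K : ℝ)| * (Ideal.absNorm f : ℝ)) ^ B * T ^ (2 * m + ε) := by
              rw [hC₃]
              ring
          _ ≤ _ := by gcongr
      · intro x hq v
        have hx := (hS' x).1 hq
        have hb := (hSm x.1).1 hx.1
        have h5 := (hb v).1
        have h6 := (hb v).2
        have h7 := (hP x.1 x.2 hx.2).1
        show 1 + |x.2 - x.1.ν v| + |(x.1.k v : ℝ)| ≤ 4 * T
        have h8 := abs_sub x.2 (x.1.ν v)
        linarith
      · intro p hp q hq hpq hne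
        have hx := (hS' p).1 hp
        have hy := (hS' q).1 hq
        rw [← hpq] at hy
        exact (hP p.1 p.2 hx.2).2 q.2 hy.2 hne

end Pool.Agent.H27.TMB
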