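import Pool.Agent.H27.TMB.Fin
import Pool.Agent.H23.SM.Targets

/-!
# The mean square over short boxes and over the box, and the twelfth moment
-/

set_option autoImplicit false

open NumberField NumberField.InfinitePlace NumberField.Units
  NumberField.Units.dirichletUnitTheorem MeasureTheory Set Filter Complex
open scoped nonZeroDivisors ENNReal

namespace Pool.Agent.H27.TMB

open Pool.Agent.H25.HK Pool.Agent.H23.LB Pool.Agent.H23.LC
open Pool.Agent.H31.SW (PP dK)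
open Pool.Agent.H27.TM Pool.Agent.H29.DW Pool.Agent.H23.SM

section NF

variable {K : Type} [Field K] [NumberField K] {f : Ideal (𝓞 K)}

theorem MomBd.mono {L : HG K f → ℂ → ℂ} {T : ℝ} {j : ℕ} {M M' : ℝ} (h : MomBd L T j M)
    (hM : M ≤ M') : MomBd L T j M' := by
  refine ⟨fun P hP => (h.1 P hP).trans hM, h.2.1.trans hM, fun V hV => ⟨?_, ?_⟩⟩
  · exact (h.2.2 V hV).1.trans (div_le_div_of_nonneg_right hM (by positivity))
  · exact (h.2.2 V hV).2.trans (div_le_div_of_nonneg_right hM (by positivity))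

end NF

/-- the theorem -/
theorem fin2 (hTM : M_TM) (hST : S_TM) (hFK : U_FK) (hSY : T_SY) (m : ℕ) (hm : 1 ≤ m)
    (hMS : MS m) :
    ∃ B c : ℝ, 0 < c ∧ ∀ ε : ℝ, 0 < ε → ∃ C : ℝ, ∀ (K : Type) [Field K] [NumberField K],
      Module.finrank ℚ K = m → ∀ f : Ideal (𝓞 K), f ≠ ⊥ → ∃ L : HG K f → ℂ → ℂ,
      (∀ χ : HG K f, IsCon χ (L χ)) ∧
      (∀ (T : InfinitePlace K → ℝ) (S : Finset (HG K f × ℝ)), (∀ v, 1 ≤ T v) →
        (∀ p ∈ S, ∀ q ∈ S, p.1 = q.1 → p.2 ≠ q.2 → 1 ≤ |p.2 - q.2|) →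
        (∀ q ∈ S, ∀ v : InfinitePlace K, 1 + |q.2 - q.1.ν v| + |(q.1.k v : ℝ)| ≤ T v) →
        ∑ q ∈ S, ‖L q.1 (1 / 2 + q.2 * I)‖ ^ 12 ≤
          C * (|(discr K : ℝ)| * Ideal.absNorm f) ^ B * (∏ v, T v ^ v.mult) ^ (2 + ε) ∧
        ∀ H : InfinitePlace K → ℝ, (∀ v, 0 ≤ H v ∧ T v ≤ H v ^ 3) →
          (∀ p ∈ S, ∀ q ∈ S, ∀ v : InfinitePlace K,
            |(p.2 - p.1.ν v) - (q.2 - q.1.ν v)| + |(p.1.k v : ℝ) - q.1.k v| ≤ H v) →
          ∑ q ∈ S, ‖L q.1 (1 / 2 + q.2 * I)‖ ^ 2 ≤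
            C * (|(discr K : ℝ)| * Ideal.absNorm f) ^ B * (∏ v, T v ^ v.mult) ^ ε *
              ∏ v, H v ^ v.mult) ∧
      ∀ T : ℝ, 1 ≤ T → (box K f T).Finite ∧
        c * (T ^ (m - 1) * (classNumber K * regulator K * Phi K f)) ≤ (box K f T).ncard ∧
        MomBd L T 2 (B * Real.log (3 + |(discr K : ℝ)| * Ideal.absNorm f * T) ^ B *
          (T ^ m * (classNumber K * regulator K * Phi K f))) ∧
        MomBd L T 12 (C * (|(discr K : ℝ)| * Ideal.absNorm f) ^ B * T ^ (2 * m + ε)) := by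
  obtain ⟨B₁, c, hc, h⟩ := fin hTM hFK hSY m hm hMS
  obtain ⟨B₂, hB₂, h₂⟩ := hST m hm
  have hB1 : B₁ ≤ max B₁ B₂ := le_max_left _ _
  have hB2 : B₂ ≤ max B₁ B₂ := le_max_right _ _
  obtain ⟨B, hB⟩ : ∃ B : ℝ, B = max B₁ B₂ := ⟨_, rfl⟩
  rw [← hB] at hB1 hB2
  have hB0 : 0 ≤ B := hB₂.trans hB2
  refine ⟨B, c, hc, fun ε hε => ?_⟩
  obtain ⟨C₁, hC₁⟩ := h ε hε
  obtain ⟨e, he⟩ : ∃ e : ℝ, e = min ε 1 := ⟨_, rfl⟩
  have he0 : 0 < e := by rw [he]; exact lt_min hε one_pos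
  have he1 : e ≤ 1 := by rw [he]; exact min_le_right _ _
  have heε : e ≤ ε := by rw [he]; exact min_le_left _ _
  obtain ⟨C₂, hC₂, h₃⟩ := h₂ e he0 he1
  have hC1 : C₁ ≤ max C₁ C₂ := le_max_left _ _
  have hC2 : C₂ ≤ max C₁ C₂ := le_max_right _ _
  obtain ⟨C, hC⟩ : ∃ C : ℝ, C = max C₁ C₂ := ⟨_, rfl⟩
  rw [← hC] at hC1 hC2
  have hC0 : 0 ≤ C := hC₂.trans hC2
  refine ⟨C, ?_⟩
  intro K _ _ hK f hf
  obtain ⟨L, hL, hL12, hLT⟩ := hC₁ K hK f hf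
  obtain ⟨Y⟩ := hSY K f hf
  choose L₂ hL₂ hLd using fun χ : HG K f => hFK K f hf Y χ
  have hCon : ∀ χ : HG K f, IsCon χ (L₂ χ) := fun χ => ⟨(hL₂ χ).1, (hL₂ χ).2.1, hLd χ⟩
  have heq : ∀ (χ : HG K f) (t : ℝ), L₂ χ (1 / 2 + t * I) = L χ (1 / 2 + t * I) := fun χ t =>
    con_half (hCon χ) (hL χ) t
  have hd : 1 ≤ |(discr K : ℝ)| := by
    have h : (1 : ℤ) ≤ |discr K| := Int.one_le_abs (discr_ne_zero K)
    have h2 : ((1 : ℤ) : ℝ) ≤ ((|discr K| : ℤ) : ℝ) := by exact_mod_cast h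
    simpa using h2
  have hN : 1 ≤ (Ideal.absNorm f : ℝ) := by
    have h : Ideal.absNorm f ≠ 0 := fun h => hf (Ideal.absNorm_eq_zero_iff.1 h)
    exact_mod_cast Nat.one_le_iff_ne_zero.2 h
  have hdN : 1 ≤ |(discr K : ℝ)| * (Ideal.absNorm f : ℝ) :=
    one_le_mul_of_one_le_of_one_le hd hN
  have hdN1 : (|(discr K : ℝ)| * (Ideal.absNorm f : ℝ)) ^ B₁ ≤
      (|(discr K : ℝ)| * (Ideal.absNorm f : ℝ)) ^ B :=
    Real.rpow_le_rpow_of_exponent_le hdN hB1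
  have hdN2 : (|(discr K : ℝ)| * (Ideal.absNorm f : ℝ)) ^ B₂ ≤
      (|(discr K : ℝ)| * (Ideal.absNorm f : ℝ)) ^ B :=
    Real.rpow_le_rpow_of_exponent_le hdN hB2
  have hpos : ∀ b : ℝ, 0 ≤ (|(discr K : ℝ)| * (Ideal.absNorm f : ℝ)) ^ b := fun b =>
    Real.rpow_nonneg (by linarith) b
  have hCB : C₁ * (|(discr K : ℝ)| * (Ideal.absNorm f : ℝ)) ^ B₁ ≤
      C * (|(discr K : ℝ)| * (Ideal.absNorm f : ℝ)) ^ B :=
    (mul_le_mul_of_nonneg_right hC1 (hpos B₁)).trans (mul_le_mul_of_nonneg_left hdN1 hC0)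
  refine ⟨L, hL, ?_, ?_⟩
  · intro T S hT hS1 hS2
    have hP : 1 ≤ ∏ v : InfinitePlace K, T v ^ v.mult := by
      have h : ∏ v : InfinitePlace K, (1 : ℝ) ≤ ∏ v : InfinitePlace K, T v ^ v.mult :=
        Finset.prod_le_prod (fun _ _ => zero_le_one) fun v _ => one_le_pow₀ (hT v)
      simpa using h
    refine ⟨(hL12 T S hT hS1 hS2).trans ?_, ?_⟩
    · exact mul_le_mul_of_nonneg_right hCB (Real.rpow_nonneg (by linarith) _)
    · intro H hH hcl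
      have h4 := h₃ K hK f hf Y L₂ hL₂ H T S (fun v => ⟨hT v, (hH v).2, (hH v).1⟩) hS2 hS1 hcl
      simp only [heq] at h4
      refine h4.trans ?_
      have e1 : PP T = ∏ v : InfinitePlace K, T v ^ v.mult := rfl
      have e2 : PP H = ∏ v : InfinitePlace K, H v ^ v.mult := rfl
      have e3 : dK K * Nf K f = |(discr K : ℝ)| * (Ideal.absNorm f : ℝ) := rfl
      rw [e1, e2, e3]
      have hH0 : 0 ≤ ∏ v : InfinitePlace K, H v ^ v.mult :=
        Finset.prod_nonneg fun v _ => pow_nonneg (hH v).1 _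
      have h5 : (∏ v : InfinitePlace K, T v ^ v.mult) ^ e ≤
          (∏ v : InfinitePlace K, T v ^ v.mult) ^ ε :=
        Real.rpow_le_rpow_of_exponent_le hP heε
      have h6 : C₂ * (|(discr K : ℝ)| * (Ideal.absNorm f : ℝ)) ^ B₂ ≤
          C * (|(discr K : ℝ)| * (Ideal.absNorm f : ℝ)) ^ B :=
        (mul_le_mul_of_nonneg_right hC2 (hpos B₂)).trans (mul_le_mul_of_nonneg_left hdN2 hC0)
      have h7 : 0 ≤ (∏ v : InfinitePlace K, T v ^ v.mult) ^ e :=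
        Real.rpow_nonneg (by linarith) _
      have h8 : 0 ≤ C * (|(discr K : ℝ)| * (Ideal.absNorm f : ℝ)) ^ B :=
        mul_nonneg hC0 (hpos B)
      calc C₂ * ((|(discr K : ℝ)| * (Ideal.absNorm f : ℝ)) ^ B₂ *
            (∏ v : InfinitePlace K, T v ^ v.mult) ^ e * ∏ v : InfinitePlace K, H v ^ v.mult)
          = C₂ * (|(discr K : ℝ)| * (Ideal.absNorm f : ℝ)) ^ B₂ *
            (∏ v : InfinitePlace K, T v ^ v.mult) ^ e * ∏ v : InfinitePlace K, H v ^ v.mult := by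
            ring
        _ ≤ C * (|(discr K : ℝ)| * (Ideal.absNorm f : ℝ)) ^ B *
            (∏ v : InfinitePlace K, T v ^ v.mult) ^ ε * ∏ v : InfinitePlace K, H v ^ v.mult :=
            mul_le_mul_of_nonneg_right (mul_le_mul h6 h5 h7 h8) hH0
  · intro T hT
    obtain ⟨h1, h2, h3, h4⟩ := hLT T hT
    have hT0 : 0 < T := by linarith
    have hx : 1 ≤ |(discr K : ℝ)| * (Ideal.absNorm f : ℝ) * T :=
      one_le_mul_of_one_le_of_one_le hdN hT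
    have hl : 1 ≤ Real.log (3 + |(discr K : ℝ)| * (Ideal.absNorm f : ℝ) * T) := by
      rw [Real.le_log_iff_exp_le (by linarith)]
      have := Real.exp_one_lt_d9
      linarith
    have h5 : Real.log (3 + |(discr K : ℝ)| * (Ideal.absNorm f : ℝ) * T) ^ B₁ ≤
        Real.log (3 + |(discr K : ℝ)| * (Ideal.absNorm f : ℝ) * T) ^ B :=
      Real.rpow_le_rpow_of_exponent_le hl hB1
    have h6 : (0 : ℝ) ≤ Real.log (3 + |(discr K : ℝ)| * (Ideal.absNorm f : ℝ) * T) ^ B₁ :=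
      Real.rpow_nonneg (by linarith) _
    have hreg : 0 < regulator K := regulator_pos K
    refine ⟨h1, h2, h3.mono ?_, h4.mono ?_⟩
    · refine mul_le_mul_of_nonneg_right ?_ (by positivity)
      exact (mul_le_mul_of_nonneg_right hB1 h6).trans (mul_le_mul_of_nonneg_left h5 hB0)
    · exact mul_le_mul_of_nonneg_right hCB (by positivity)

end Pool.Agent.H27.TMB
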