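import Pool.Agent.H27.TMB.All
import Pool.Agent.H59.SM.BI
import Pool.Agent.H59.SM.K1
import Pool.Agent.H19.SM.BP
import Pool.Agent.H42.SM.BQ
import Pool.Agent.H48.SM.CN
import Pool.Agent.H65.SM.JN
import Pool.Agent.H19.SM.K2
import Pool.Agent.H65.SM.KF
import Pool.Agent.H70.SM.LT
import Pool.Agent.H39.SM.OC
import Pool.Agent.H6.SM.P2
import Pool.Agent.H49.SM.RT
import Pool.Agent.H92.SM.TM

/-!
# The mean square of Hecke L-functions over short boxes: assembly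
-/

set_option autoImplicit false

open NumberField NumberField.InfinitePlace Complex

namespace Pool.Agent.H27.TMB.SMA

open Pool.Agent.H27.TM Pool.Agent.H31.SW Pool.Agent.H31.SWL.All Pool.Agent.H29.DW.Base
open Pool.Agent.H29.DW.All (d_PG d_AE d_GH)
open Pool.Agent.H29.THC.Base (c_TH c_YC c_DU c_RX c_PU c_RR c_SY)
open Pool.Agent.H29.THC.All (a_HR)
open Pool.Agent.H27.TMB.All Pool.Agent.H23.SM

theorem s_P2 : S_P2 := Pool.Agent.H6.SM.P2.pf_P2 m_DU m_ET m_ZT m_PS m_DV m_SM m_DL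
theorem s_OC : S_OC := Pool.Agent.H39.SM.OC.pf_OC m_P1 s_P2
theorem s_CN : S_CN := Pool.Agent.H48.SM.CN.pf_CN m_CL
theorem s_K1 : S_K1 := Pool.Agent.H59.SM.K1.pf_K1 m_RK m_MJ m_MQ m_DY s_OC
theorem s_K2 : S_K2 := Pool.Agent.H19.SM.K2.pf_K2 s_K1 s_CN
theorem s_KF : S_KF := Pool.Agent.H65.SM.KF.pf_KF s_K2
theorem s_RT : S_RT := Pool.Agent.H49.SM.RT.pf_RT s_KF c_RX w_CU
theorem s_JN : S_JN := Pool.Agent.H65.SM.JN.pf_JN
theorem s_BI : S_BI :=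
  Pool.Agent.H59.SM.BI.pf_BI s_RT s_JN w_IN w_MS c_RR c_YC c_FD
theorem s_BP : S_BP :=
  Pool.Agent.H19.SM.BP.pf_BP w_UP w_WL s_BI u_CG c_SY
theorem s_BQ : S_BQ :=
  Pool.Agent.H42.SM.BQ.pf_BQ w_UQ w_WL s_BI c_RR u_DC
theorem s_LT : S_LT :=
  Pool.Agent.H70.SM.LT.pf_LT s_BP s_BQ m_SP d_AE d_GH a_HR
    Pool.Agent.H63.HK.ds u_DC u_GE
theorem s_TM : S_TM := Pool.Agent.H92.SM.TM.pf_TM s_LT

end Pool.Agent.H27.TMB.SMA
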