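import Pool.Agent.H29.DW.Stmt

/-!
# Abbreviations for the statement about the moments of Hecke L-functions
-/

set_option autoImplicit false

open NumberField NumberField.InfinitePlace NumberField.Units MeasureTheory Set Complex

namespace Pool.Agent.H27.TMB

open Pool.Agent.H23.LC Pool.Agent.H29.DW

section

variable {K : Type} [Field K] [NumberField K] {f : Ideal (𝓞 K)}

/-- The sum of the values of `|L|^j` at separated points, the integral of `|L|^j` over `[-T, T]` and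
over the characters of `box K f T`, and `V^j` times the number of the characters (the measure of the
set of the pairs) with large values are at most `M`. -/
def MomBd (L : HG K f → ℂ → ℂ) (T : ℝ) (j : ℕ) (M : ℝ) : Prop :=
  (∀ P : HG K f → Finset ℝ,
    (∀ χ, ∀ t ∈ P χ, |t| ≤ T ∧ ∀ t' ∈ P χ, t ≠ t' → 1 ≤ |t - t'|) →
    ∑ᶠ χ ∈ box K f T, ∑ t ∈ P χ, ‖L χ (1 / 2 + t * I)‖ ^ j ≤ M) ∧
  ∑ᶠ χ ∈ box K f T, ∫ t in (-T)..T, ‖L χ (1 / 2 + t * I)‖ ^ j ≤ M ∧
  ∀ V : ℝ, 0 < V →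
    ({χ ∈ box K f T | ∃ t : ℝ, |t| ≤ T ∧ V < ‖L χ (1 / 2 + t * I)‖}.ncard : ℝ) ≤ M / V ^ j ∧
    ∑ᶠ χ ∈ box K f T, (volume {t : ℝ | |t| ≤ T ∧ V < ‖L χ (1 / 2 + t * I)‖}).toReal ≤ M / V ^ j

end

end Pool.Agent.H27.TMB
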